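import Mathlib
import Pool.Agent.Lib.MP_851c4e_ag.Defs

/-!
The very compressed locus of `Hilb_d(A^3)` for an arbitrary degree `d`.
-/

set_option autoImplicit false

namespace Pool.Agent.Lib.MP_851c4e_ag.Win

open MvPolynomial

/-- The locus of algebras supported at the origin with Hilbert function
`(1, 3, 6, ..., C(s+1,2), a)`, the last entry in degree `s`. -/
def VComp0 (k : Type) [Field k] (d s a : ℕ) : Set (Hilb k d) :=
  {I | I.ideal.radical = idealOfVars (Fin 3) k ∧
    ∀ i, hilbFun I.ideal i = if i < s then (i + 2).choose 2 else if i = s then a else 0}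

/-- The very compressed locus: translates of members of `VComp0` to arbitrary points `q`. -/
def VComp (k : Type) [Field k] (d s a : ℕ) : Set (Hilb k d) :=
  {J | ∃ I ∈ VComp0 k d s a, ∃ q : Fin 3 → k,
    J.ideal = I.ideal.comap (aeval (fun i => X i + C (q i)) : PS k →ₐ[k] PS k)}

end Pool.Agent.Lib.MP_851c4e_ag.Win
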