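import Mathlib
import Pool.Agent.Lib.MP_851c4e_ag.Main
import Pool.Agent.Lib.MP_851c4e_ag.Win.Defs

/-!
Families of commuting matrices on the span of the monomials of degree at most `p` and `a` further
vectors.
-/

set_option autoImplicit false

namespace Pool.Agent.Lib.MP_851c4e_ag.Win

open MvPolynomial Matrix Topology
open Finsupp (degree degree_eq_sum)

lemma card_MD' (n : ℕ) : (MD n).card = (n + 2).choose 2 := by
  rw [card_MD, Nat.choose_symm_add]

/-- exponent vectors of degree at most `p` -/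
noncomputable def Lo (p : ℕ) : Finset Mon := (Finset.range (p + 1)).biUnion MD

lemma mem_Lo {p : ℕ} {m : Mon} : m ∈ Lo p ↔ degree m ≤ p := by
  simp [Lo, mem_MD]

lemma card_Lo (p : ℕ) : (Lo p).card = (p + 3).choose 3 := by
  rw [Lo, Finset.card_biUnion]
  · simp only [card_MD']
    induction p with
    | zero => simp
    | succ n ih =>
      rw [Finset.sum_range_succ, ih, add_comm]
      exact (Nat.choose_succ_succ (n + 3) 2).symm
  · intro a _ b _ hab
    exact Finset.disjoint_left.2 fun m h1 h2 => hab ((mem_MD.1 h1).symm.trans (mem_MD.1 h2))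

/-- basis of the algebras of the families -/
abbrev Ix (p a : ℕ) : Type := Lo p ⊕ Fin a

lemma card_Ix (p a : ℕ) : Fintype.card (Ix p a) = (p + 3).choose 3 + a := by simp [card_Lo]

lemma split_mon {m : Mon} {n : ℕ} (h : degree m = n + 1) :
    ∃ m' l, degree m' = n ∧ m = m' + Finsupp.single l 1 := by
  have h0 : m ≠ 0 := by rintro rfl; simp at h
  obtain ⟨l, hl⟩ := Finsupp.support_nonempty_iff.2 h0
  obtain ⟨m', rfl⟩ := le_iff_exists_add'.1
    (show Finsupp.single l 1 ≤ m by simp_all [Nat.one_le_iff_ne_zero])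
  exact ⟨m', l, by simpa using h, rfl⟩

section generic

variable {p a : ℕ} {R : Type} [CommRing R] (low : Mon → Lo p → R) (Q : Fin a → Mon → R)
  (top : Fin 3 → Fin a → Ix p a → R)

open Classical in
/-- the class of a monomial -/
noncomputable def vc (m : Mon) : Ix p a → R :=
  Sum.elim (fun b => if b.1 = m then 1 else if degree m = p + 1 then low m b else 0)
    fun j => if degree m = p + 1 then Q j m else 0

/-- the multiplication matrices -/
noncomputable def Mx (l : Fin 3) : Matrix (Ix p a) (Ix p a) R :=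
  Matrix.of fun i j => Sum.elim (fun b => vc low Q (b.1 + Finsupp.single l 1) i)
    (fun j' => top l j' i) j

lemma Mx_mulVec (l : Fin 3) (u : Ix p a → R) :
    Mx low Q top l *ᵥ u = ∑ b : Lo p, u (Sum.inl b) • vc low Q (b.1 + Finsupp.single l 1) +
      ∑ j, u (Sum.inr j) • top l j := by
  ext i
  simp [Mx, Matrix.mulVec, dotProduct, Finset.sum_apply, mul_comm]

lemma vc_low {m : Mon} (hm : degree m ≤ p) :
    vc low Q m = Pi.single (Sum.inl ⟨m, mem_Lo.2 hm⟩) 1 := by
  have : degree m ≠ p + 1 := by omega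
  ext (b | j)
  · simp [vc, this, Pi.single_apply, Subtype.ext_iff]
  · simp [vc, this]

lemma vc_mid {m : Mon} (hm : degree m = p + 1) :
    vc low Q m = Sum.elim (low m) fun j => Q j m := by
  ext (b | j)
  · have : b.1 ≠ m := by rintro rfl; have := mem_Lo.1 b.2; omega
    simp [vc, hm, this]
  · simp [vc, hm]

lemma vc_high {m : Mon} (hm : p + 2 ≤ degree m) : vc low Q m = 0 := by
  have h : degree m ≠ p + 1 := by omega
  ext (b | j)
  · have : b.1 ≠ m := by rintro rfl; have := mem_Lo.1 b.2; omega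
    simp [vc, h, this]
  · simp [vc, h]

lemma Mx_low (l : Fin 3) {m : Mon} (hm : degree m ≤ p) :
    Mx low Q top l *ᵥ vc low Q m = vc low Q (m + Finsupp.single l 1) := by
  rw [Mx_mulVec, vc_low low Q hm, Finset.sum_eq_single ⟨m, mem_Lo.2 hm⟩]
  · simp
  · intro b _ hb; simp [hb]
  · simp

lemma Mx_comm (h1 : ∀ l l' m, degree m = p →
      Mx low Q top l *ᵥ vc low Q (m + Finsupp.single l' 1) =
        Mx low Q top l' *ᵥ vc low Q (m + Finsupp.single l 1))
    (h2 : ∀ l l' j, Mx low Q top l *ᵥ top l' j = Mx low Q top l' *ᵥ top l j) (l l' : Fin 3) :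
    Commute (Mx low Q top l) (Mx low Q top l') := by
  refine Matrix.toLin'.injective (LinearMap.ext fun u => ?_)
  simp only [Matrix.toLin'_apply, ← Matrix.mulVec_mulVec]
  rw [Mx_mulVec low Q top l' u, Mx_mulVec low Q top l u]
  simp only [Matrix.mulVec_add, Matrix.mulVec_sum, Matrix.mulVec_smul, h2 l l']
  congr 1
  refine Finset.sum_congr rfl fun b _ => ?_
  rcases (mem_Lo.1 b.2).eq_or_lt with h | h
  · rw [h1 l l' _ h]
  · rw [Mx_low low Q top l (by simp; omega), Mx_low low Q top l' (by simp; omega),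
      add_right_comm]

lemma vc_congr {low low' : Mon → Lo p → R} (h : ∀ m, degree m = p + 1 → low m = low' m) :
    vc low Q = vc low' Q := by
  ext m (b | j)
  · simp only [vc, Sum.elim_inl]
    split_ifs with h1 h2
    · rfl
    · rw [h m h2]
    · rfl
  · rfl

/-- the point of the affine space of matrices and vectors -/
noncomputable def Ph {d : ℕ} (e : Ix p a ≃ Fin d) (q : Fin 3 → R) : Idx d → R :=
  Sum.elim (fun s => Mx low Q top s.1 (e.symm s.2.1) (e.symm s.2.2) +
    if s.2.1 = s.2.2 then q s.1 else 0) fun x => vc low Q 0 (e.symm x)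

/-- the open condition -/
noncomputable def gd (p : ℕ) (Q : Fin a → Mon → R) (r : Mon → Fin a → R) : R :=
  Matrix.det (Matrix.of fun j j' : Fin a => ∑ m ∈ MD (p + 1), Q j m * r m j')

variable {R' : Type} [CommRing R'] (φ : R →+* R')

lemma map_vc (m : Mon) (i : Ix p a) :
    φ (vc low Q m i) = vc (fun m b => φ (low m b)) (fun j m => φ (Q j m)) m i := by
  rcases i with b | j <;> simp [vc, apply_ite φ]

lemma map_Mx (l : Fin 3) : φ.mapMatrix (Mx low Q top l) =
    Mx (fun m b => φ (low m b)) (fun j m => φ (Q j m)) (fun l j i => φ (top l j i)) l := by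
  ext x (y | y) <;> simp [Mx, map_vc]

lemma map_Ph {d : ℕ} (e : Ix p a ≃ Fin d) (q : Fin 3 → R) (s : Idx d) :
    φ (Ph low Q top e q s) = Ph (fun m b => φ (low m b)) (fun j m => φ (Q j m))
      (fun l j i => φ (top l j i)) e (fun i => φ (q i)) s := by
  rcases s with ⟨l, x, y⟩ | x
  · simp only [Ph, Mx, Sum.elim_inl, map_add, apply_ite φ, map_zero, Matrix.of_apply]
    rcases e.symm y with b' | b' <;> simp [map_vc]
  · simp [Ph, map_vc]

lemma map_gd (r : Mon → Fin a → R) :
    φ (gd p Q r) = gd p (fun j m => φ (Q j m)) (fun m j => φ (r m j)) := by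
  rw [gd, RingHom.map_det, gd]
  congr 1
  ext j j'
  simp

/-- a monomial in the matrices shifted by multiples of their traces, applied to the vector -/
noncomputable def En {ι : Type} [Fintype ι] [DecidableEq ι] (A : Fin 3 → Matrix ι ι R) (v : ι → R)
    (c : R) (m : Mon) : ι → R :=
  ((A 0 + (c * (A 0).trace) • 1) ^ m 0 * (A 1 + (c * (A 1).trace) • 1) ^ m 1 *
    (A 2 + (c * (A 2).trace) • 1) ^ m 2) *ᵥ v

lemma map_En {ι : Type} [Fintype ι] [DecidableEq ι] (A : Fin 3 → Matrix ι ι R) (v : ι → R)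
    (c : R) (m : Mon) (x : ι) :
    φ (En A v c m x) = En (fun l => φ.mapMatrix (A l)) (fun i => φ (v i)) (φ c) m x := by
  have h : ∀ l, φ.mapMatrix (A l + (c * (A l).trace) • 1) =
      φ.mapMatrix (A l) + (φ c * (φ.mapMatrix (A l)).trace) • 1 := by
    intro l
    ext x y
    simp [Matrix.trace, Matrix.one_apply, apply_ite φ]
  rw [En, En, ← h, ← h, ← h, ← map_pow, ← map_pow, ← map_pow, ← map_mul, ← map_mul]
  generalize (A 0 + (c * (A 0).trace) • 1) ^ m 0 * (A 1 + (c * (A 1).trace) • 1) ^ m 1 *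
    (A 2 + (c * (A 2).trace) • 1) ^ m 2 = N
  simp [Matrix.mulVec, dotProduct]

end generic

variable {k : Type} [Field k]

section act

variable {ι : Type} [Fintype ι] [DecidableEq ι] {A : Fin 3 → Matrix ι ι k} {v : ι → k}

lemma comm_shift (h : ∀ i j, Commute (A i) (A j)) (q : Fin 3 → k) (i j : Fin 3) :
    Commute (A i + q i • 1) (A j + q j • 1) := by
  refine Commute.add_left (Commute.add_right (h i j) ?_) ?_
  · exact (Commute.one_right _).smul_right _
  · exact (Commute.one_left _).smul_left _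

lemma act_shift (h : ∀ i j, Commute (A i) (A j)) (q : Fin 3 → k) (F : PS k) :
    act (fun i => A i + q i • 1) v F = act A v (tr q F) := by
  refine act_unique (comm_shift h q) (act A v ∘ₗ (tr q).toLinearMap) ?_ (fun i F => ?_) F
  · simp only [LinearMap.comp_apply, AlgHom.toLinearMap_apply, map_one, act_one]
  · simp only [LinearMap.comp_apply, AlgHom.toLinearMap_apply, map_mul, tr, aeval_X, add_mul,
      map_add, act_X_mul h, ← smul_eq_C_mul, map_smul, Matrix.add_mulVec, Matrix.smul_mulVec,
      Matrix.one_mulVec]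

lemma nil_of_act (h : ∀ i j, Commute (A i) (A j)) (hs : Function.Surjective (act A v)) (l : Fin 3)
    (n : ℕ) (h0 : act A v (monomial (Finsupp.single l n) 1) = 0) : A l ^ n = 0 := by
  have e : ∀ (n : ℕ) (F : PS k), act A v (X l ^ n * F) = A l ^ n *ᵥ act A v F := by
    intro n F
    induction n with
    | zero => simp
    | succ n ih => rw [pow_succ', pow_succ', mul_assoc, act_X_mul h, ih, Matrix.mulVec_mulVec]
  refine Matrix.toLin'.injective (LinearMap.ext fun u => ?_)
  obtain ⟨F, rfl⟩ := hs u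
  rw [Matrix.toLin'_apply, ← e, mul_comm, act_mul_eq_zero h _ _ _ (by rwa [X_pow_eq_monomial])]
  simp

lemma eigen_of_nil {M : Matrix ι ι k} {q μ : k} {n : ℕ} (h : (M + q • 1) ^ n = 0) {x : ι → k}
    (hx : x ≠ 0) (hM : M *ᵥ x = μ • x) : μ + q = 0 := by
  have : ∀ n : ℕ, (M + q • 1) ^ n *ᵥ x = (μ + q) ^ n • x := by
    intro n
    induction n with
    | zero => rw [pow_zero, pow_zero, one_smul, Matrix.one_mulVec]
    | succ n ih =>
      rw [pow_succ', ← Matrix.mulVec_mulVec, ih, Matrix.mulVec_smul, Matrix.add_mulVec, hM,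
        Matrix.smul_mulVec, Matrix.one_mulVec, ← add_smul, smul_smul, pow_succ]
  have h3 := this n
  rw [h, Matrix.zero_mulVec] at h3
  exact IsNilpotent.eq_zero ⟨n, (smul_eq_zero.1 h3.symm).resolve_right hx⟩

end act

end Pool.Agent.Lib.MP_851c4e_ag.Win
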