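import Mathlib
import Pool.Agent.Lib.MP_851c4e_ag.Win.Base

/-!
A polynomial family that contains every very compressed algebra and one algebra not killed by the
`(p+2)`-th power of a maximal ideal gives a larger irreducible closed set.
-/

set_option autoImplicit false

namespace Pool.Agent.Lib.MP_851c4e_ag.Win

open MvPolynomial Matrix Topology
open Finsupp (degree degree_eq_sum)

variable {k : Type} [Field k] {p a : ℕ}

section pt

variable {low : Mon → Lo p → k} {Q : Fin a → Mon → k} {top : Fin 3 → Fin a → Ix p a → k}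

lemma rho_mon (hc : ∀ l l', Commute (Mx low Q top l) (Mx low Q top l')) (m : Mon)
    (hm : degree m ≤ p + 1 ∨ (low = 0 ∧ top = 0)) :
    act (Mx low Q top) (vc low Q 0) (monomial m 1) = vc low Q m := by
  generalize hn : degree m = n
  induction n generalizing m with
  | zero =>
    rw [Finsupp.degree_eq_zero_iff] at hn
    subst hn
    exact act_one
  | succ n ih =>
    obtain ⟨m', l, hd, rfl⟩ := split_mon hn
    have e : (monomial (m' + Finsupp.single l 1) 1 : PS k) = X l * monomial m' 1 := by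
      rw [X, monomial_mul, one_mul, add_comm]
    rw [e, act_X_mul hc, ih m' (hm.imp_left fun h => by omega) hd]
    by_cases h6 : degree m' ≤ p
    · exact Mx_low low Q top l h6
    obtain ⟨h1, h2⟩ := hm.resolve_left (by omega)
    rw [vc_high low Q (m := m' + _) (by omega)]
    by_cases h7 : degree m' = p + 1
    · rw [vc_mid low Q h7]
      subst h1 h2
      rw [Mx_mulVec]
      simp
    · rw [vc_high low Q (by omega), Matrix.mulVec_zero]

lemma rho_surj (hc : ∀ l l', Commute (Mx low Q top l) (Mx low Q top l')) {r : Mon → Fin a → k}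
    (h : gd p Q r ≠ 0) : Function.Surjective (act (Mx low Q top) (vc low Q 0)) := by
  classical
  have h1 : ∀ u : Ix p a → k, (∀ j, u (Sum.inr j) = 0) →
      u ∈ LinearMap.range (act (Mx low Q top) (vc low Q 0)) := by
    intro u hu
    have : u = ∑ b : Lo p, u (Sum.inl b) • (Pi.single (Sum.inl b) 1 : Ix p a → k) := by
      ext (b | j)
      · simp [Finset.sum_apply, Pi.single_apply]
      · simp [Finset.sum_apply, hu]
    rw [this]
    refine Submodule.sum_mem _ fun b _ => Submodule.smul_mem _ _ ⟨monomial b.1 1, ?_⟩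
    rw [rho_mon hc _ (Or.inl (by have := mem_Lo.1 b.2; omega)), vc_low low Q (mem_Lo.1 b.2)]
  intro u
  obtain ⟨y, hy⟩ := Matrix.mulVec_surjective_iff_isUnit.2
    ((Matrix.isUnit_iff_isUnit_det _).2 (isUnit_iff_ne_zero.2 h)) fun j => u (Sum.inr j)
  let F : PS k := ∑ m ∈ MD (p + 1), (∑ j', r m j' * y j') • monomial m 1
  have h2 : ∀ j, act (Mx low Q top) (vc low Q 0) F (Sum.inr j) = u (Sum.inr j) := by
    intro j
    rw [← congrFun hy j]
    simp only [F, map_sum, map_smul, Finset.sum_apply, Pi.smul_apply, smul_eq_mul, Matrix.mulVec,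
      dotProduct, Matrix.of_apply, Finset.sum_mul]
    rw [Finset.sum_comm]
    refine Finset.sum_congr rfl fun j' _ => Finset.sum_congr rfl fun m hm => ?_
    rw [rho_mon hc m (Or.inl (mem_MD.1 hm).le)]
    simp only [vc, Sum.elim_inr, mem_MD.1 hm, if_true]
    ring
  have := Submodule.add_mem _ (h1 (u - act (Mx low Q top) (vc low Q 0) F) fun j => by simp [h2])
    ⟨F, rfl⟩
  simpa using this

variable {d : ℕ} (e : Ix p a ≃ Fin d) (q : Fin 3 → k)

lemma matOf_Ph (l : Fin 3) :
    matOf (Ph low Q top e q) l = Matrix.reindexAlgEquiv k k e (Mx low Q top l) + q l • 1 := by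
  ext x y
  simp [matOf, Ph, Matrix.one_apply]

lemma comm_Ph (hc : ∀ l l', Commute (Mx low Q top l) (Mx low Q top l')) (i j : Fin 3) :
    Commute (matOf (Ph low Q top e q) i) (matOf (Ph low Q top e q) j) := by
  rw [matOf_Ph, matOf_Ph]
  exact comm_shift (A := fun l => Matrix.reindexAlgEquiv k k e (Mx low Q top l))
    (fun i j => (hc i j).map _) q i j

lemma act_Ph (hc : ∀ l l', Commute (Mx low Q top l) (Mx low Q top l')) (F : PS k) :
    act (matOf (Ph low Q top e q)) (vecOf (Ph low Q top e q)) F =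
      act (Mx low Q top) (vc low Q 0) (tr q F) ∘ e.symm := by
  refine act_unique (comm_Ph e q hc) (LinearMap.funLeft k k e.symm ∘ₗ
    act (Mx low Q top) (vc low Q 0) ∘ₗ (tr q).toLinearMap) ?_ (fun i F => ?_) F
  · simp only [LinearMap.comp_apply, AlgHom.toLinearMap_apply, map_one, act_one]
    rfl
  · simp only [LinearMap.comp_apply, AlgHom.toLinearMap_apply, map_mul, tr, aeval_X, add_mul,
      map_add, act_X_mul hc, ← smul_eq_C_mul, map_smul, matOf_Ph,
      Matrix.add_mulVec, Matrix.smul_mulVec, Matrix.one_mulVec]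
    refine congrArg₂ _ (funext fun x => ?_) rfl
    simp only [LinearMap.funLeft_apply, Matrix.mulVec, dotProduct, Matrix.coe_reindexAlgEquiv,
      Matrix.reindex_apply, Matrix.submatrix_apply]
    exact (Equiv.sum_comp e.symm fun j => Mx low Q top i (e.symm x) j * _).symm

lemma stable_Ph (hc : ∀ l l', Commute (Mx low Q top l) (Mx low Q top l')) {r : Mon → Fin a → k}
    (h : gd p Q r ≠ 0) : IsStable (Ph low Q top e q) := by
  refine ⟨comm_Ph e q hc, fun u => ?_⟩
  obtain ⟨G, hG⟩ := rho_surj hc h (u ∘ e)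
  obtain ⟨F, rfl⟩ := tr_surj q G
  exact ⟨F, by rw [act_Ph e q hc, hG]; ext x; simp⟩

lemma mem_idealOf_Ph (hc : ∀ l l', Commute (Mx low Q top l) (Mx low Q top l'))
    (h : IsStable (Ph low Q top e q)) (F : PS k) :
    F ∈ idealOf ⟨Ph low Q top e q, h⟩ ↔ act (Mx low Q top) (vc low Q 0) (tr q F) = 0 := by
  show act _ _ F = 0 ↔ _
  rw [act_Ph e q hc]
  exact ⟨fun h => by ext i; simpa using congrFun h (e i), fun h => by rw [h]; rfl⟩

end pt

lemma facts {d : ℕ} (hd : d = (p + 3).choose 3 + a) (ha : 1 ≤ a) {I : Hilb k d}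
    (hI : I ∈ VComp0 k d (p + 1) a) : idealOfVars (Fin 3) k ^ (p + 2) ≤ I.ideal ∧
    ∃ (n : Fin a → PS k ⧸ I.ideal) (Q : Fin a → Mon → k), ∀ m, degree m = p + 1 →
      Ideal.Quotient.mk I.ideal (monomial m 1) = ∑ j, Q j m • n j := by
  have := I.finite
  have h := hI.2
  let c : ℕ → ℕ := fun i => Module.finrank k (PS k ⧸ (idealOfVars (Fin 3) k ^ i ⊔ I.ideal))
  have hc : ∀ i, i ≤ p + 1 → c i = (i + 2).choose 3 := by
    intro i
    induction i with
    | zero =>
      intro _
      simp only [c]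
      rw [pow_zero, Ideal.one_eq_top, top_sup_eq]; exact Module.finrank_zero_of_subsingleton
    | succ i ih =>
      intro hi
      have h1 : c (i + 1) - c i = _ := h i
      rw [if_pos (by omega), ih (by omega)] at h1
      have h2 : 0 < (i + 2).choose 2 := Nat.choose_pos (by omega)
      have h3 : (i + 1 + 2).choose 3 = (i + 2).choose 2 + (i + 2).choose 3 :=
        Nat.choose_succ_succ (i + 2) 2
      omega
  have e7 : Module.finrank k (PS k ⧸ (idealOfVars (Fin 3) k ^ (p + 1) ⊔ I.ideal)) =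
      (p + 3).choose 3 := hc (p + 1) le_rfl
  have e8 : Module.finrank k (PS k ⧸ (idealOfVars (Fin 3) k ^ (p + 2) ⊔ I.ideal)) = d := by
    have h1 : c (p + 2) - c (p + 1) = _ := h (p + 1)
    rw [if_neg (by omega), if_pos rfl] at h1
    have h2 : c (p + 1) = (p + 3).choose 3 := e7
    show c (p + 2) = d
    omega
  have d7 := finrank_ker_factor
    (le_sup_right : I.ideal ≤ idealOfVars (Fin 3) k ^ (p + 1) ⊔ I.ideal)
  have d8 := finrank_ker_factor
    (le_sup_right : I.ideal ≤ idealOfVars (Fin 3) k ^ (p + 2) ⊔ I.ideal)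
  rw [I.colength] at d7 d8
  constructor
  · intro F hF
    have : LinearMap.ker (Ideal.Quotient.factorₐ k
        (le_sup_right : I.ideal ≤ idealOfVars (Fin 3) k ^ (p + 2) ⊔ I.ideal)).toLinearMap = ⊥ :=
      Submodule.finrank_eq_zero.1 (by omega)
    rw [← Ideal.Quotient.eq_zero_iff_mem]
    exact LinearMap.ker_eq_bot'.1 this _ (Ideal.Quotient.eq_zero_iff_mem.2 (Ideal.mem_sup_left hF))
  · let N := LinearMap.ker (Ideal.Quotient.factorₐ k
      (le_sup_right : I.ideal ≤ idealOfVars (Fin 3) k ^ (p + 1) ⊔ I.ideal)).toLinearMap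
    let b := Module.finBasisOfFinrankEq k N (n := a) (by simp only [N]; omega)
    have hm : ∀ m, degree m = p + 1 → Ideal.Quotient.mk I.ideal (monomial m 1) ∈ N := fun m hm =>
      Ideal.Quotient.eq_zero_iff_mem.2 (Ideal.mem_sup_left
        ((monomial_mem_pow_idealOfVars_iff (p + 1) m one_ne_zero).2 hm.ge))
    refine ⟨fun j => b j, fun j m => if h : degree m = p + 1 then b.repr ⟨_, hm m h⟩ j else 0,
      fun m h => ?_⟩
    have := congrArg Subtype.val (b.sum_repr ⟨_, hm m h⟩)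
    rw [Submodule.coe_sum] at this
    simp only [h, dif_pos]
    exact this.symm

lemma comm_zero (Q : Fin a → Mon → k) (l l' : Fin 3) :
    Commute (Mx (p := p) 0 Q 0 l) (Mx (p := p) 0 Q 0 l') := by
  refine Mx_comm _ _ _ (fun l l' m hm => ?_) (fun _ _ _ => by simp) l l'
  rw [vc_mid _ _ (by simp [hm]), vc_mid _ _ (by simp [hm]), Mx_mulVec, Mx_mulVec]
  simp

lemma cover {d : ℕ} (hd : d = (p + 3).choose 3 + a) (I : Hilb k d)
    (h8 : idealOfVars (Fin 3) k ^ (p + 2) ≤ I.ideal) (n : Fin a → PS k ⧸ I.ideal)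
    (Q : Fin a → Mon → k) (hQ : ∀ m, degree m = p + 1 →
      Ideal.Quotient.mk I.ideal (monomial m 1) = ∑ j, Q j m • n j) :
    (∃ r, gd p Q r ≠ 0) ∧ ∀ G, act (Mx (p := p) 0 Q 0) (vc 0 Q 0) G = 0 ↔ G ∈ I.ideal := by
  classical
  have hmon := fun m => rho_mon (comm_zero (p := p) Q) m (Or.inr ⟨rfl, rfl⟩)
  let θ : (Ix p a → k) →ₗ[k] PS k ⧸ I.ideal := Fintype.linearCombination k
    (Sum.elim (fun b => Ideal.Quotient.mk I.ideal (monomial b.1 1)) n)
  have hθ : ∀ F, θ (act (Mx (p := p) 0 Q 0) (vc 0 Q 0) F) = Ideal.Quotient.mk I.ideal F := by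
    intro F
    have : θ ∘ₗ act (Mx (p := p) 0 Q 0) (vc 0 Q 0) =
        (Ideal.Quotient.mkₐ k I.ideal).toLinearMap := by
      refine (basisMonomials (Fin 3) k).ext fun m => ?_
      simp only [LinearMap.comp_apply, coe_basisMonomials, hmon,
        AlgHom.toLinearMap_apply, Ideal.Quotient.mkₐ_eq_mk]
      rcases lt_trichotomy (degree m) (p + 1) with h | h | h
      · rw [vc_low _ _ (by omega)]; simp [θ]
      · rw [hQ m h, vc_mid _ _ h]
        simp [θ, Fintype.linearCombination_apply]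
      · rw [vc_high _ _ h, map_zero, eq_comm, Ideal.Quotient.eq_zero_iff_mem]
        exact h8 ((monomial_mem_pow_idealOfVars_iff (p + 2) m one_ne_zero).2 h)
    rw [← LinearMap.comp_apply, this]
    rfl
  have := I.finite
  have hrk : Module.finrank k (Ix p a → k) = Module.finrank k (PS k ⧸ I.ideal) :=
    (Module.finrank_fintype_fun_eq_card k).trans ((card_Ix p a).trans (hd.symm.trans
      I.colength.symm))
  have hinj : Function.Injective θ :=
    (LinearMap.injective_iff_surjective_of_finrank_eq_finrank hrk).2 fun y => by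
        obtain ⟨F, rfl⟩ := Ideal.Quotient.mk_surjective y
        exact ⟨_, hθ F⟩
  choose F hF using fun j => Ideal.Quotient.mk_surjective (n j)
  refine ⟨⟨fun m j => coeff m (F j), ?_⟩, fun G => ?_⟩
  · have : (Matrix.of fun j j' : Fin a => ∑ m ∈ MD (p + 1), Q j m * coeff m (F j')) = 1 := by
      ext j j'
      have h1 : act (Mx (p := p) 0 Q 0) (vc 0 Q 0) (F j') = Pi.single (Sum.inr j') 1 :=
        hinj (by rw [hθ, hF]; simp [θ])
      have h2 : ∀ G : PS k, act (Mx (p := p) 0 Q 0) (vc 0 Q 0) G (Sum.inr j) =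
          ∑ m ∈ MD (p + 1), Q j m * coeff m G := by
        intro G
        induction G using MvPolynomial.induction_on' with
        | monomial m c =>
          rw [← mul_one c, ← smul_eq_mul, ← smul_monomial, map_smul, hmon]
          simp [vc, coeff_monomial, mem_MD, mul_comm]
        | add p q hp hq => simp [hp, hq, mul_add, Finset.sum_add_distrib]
      have h3 := h2 (F j')
      rw [h1] at h3
      simp only [Matrix.of_apply, ← h3, Matrix.one_apply, Pi.single_apply, Sum.inr.injEq]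
    rw [gd, this]; simp
  · rw [← Ideal.Quotient.eq_zero_iff_mem, ← hθ, map_eq_zero_iff θ hinj]

/-- ideals containing the `n`-th power of the maximal ideal of a point -/
def TT (k : Type) [Field k] (d n : ℕ) : Set (Hilb k d) :=
  {J | ∃ q : Fin 3 → k, ∀ m, degree m = n → tr q (monomial m 1) ∈ J.ideal}

lemma tr_tr (q q' : Fin 3 → k) (F : PS k) : tr q (tr q' F) = tr (q + q') F := by
  have : (tr q).comp (tr q') = tr (q + q') := by ext i : 1; simp [tr, add_assoc]
  exact AlgHom.congr_fun this F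

lemma tr_zero (F : PS k) : tr 0 F = F := by
  have : tr (0 : Fin 3 → k) = AlgHom.id k _ := by ext i : 1; simp [tr]
  exact AlgHom.congr_fun this F

lemma act_En {ι : Type} [Fintype ι] [DecidableEq ι] (A : Fin 3 → Matrix ι ι k) (v : ι → k) (c : k)
    (m : Mon) : act (fun l => A l + (c * (A l).trace) • 1) v (monomial m 1) = En A v c m :=
  act_monomial _ _ _

lemma shift_surj {ι : Type} [Fintype ι] [DecidableEq ι] {A : Fin 3 → Matrix ι ι k}
    {v : ι → k} (hc : ∀ i j, Commute (A i) (A j)) (hs : Function.Surjective (act A v))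
    (q : Fin 3 → k) : Function.Surjective (act (fun l => A l + q l • 1) v) := by
  intro u
  obtain ⟨G, rfl⟩ := hs u
  obtain ⟨F, rfl⟩ := tr_surj q G
  exact ⟨F, act_shift hc q F⟩

lemma En_eq_zero [CharZero k] {ι : Type} [Fintype ι] [DecidableEq ι] {d : ℕ} (hd : d ≠ 0)
    (hι : Fintype.card ι = d) {A : Fin 3 → Matrix ι ι k}
    {v : ι → k} (hc : ∀ i j, Commute (A i) (A j)) (hs : Function.Surjective (act A v))
    {q : Fin 3 → k} {n : ℕ}
    (hq : ∀ m, degree m = n → act (fun l => A l + q l • 1) v (monomial m 1) = 0) (m : Mon)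
    (hm : degree m = n) : En A v (-(d : k)⁻¹) m = 0 := by
  have key : ∀ l, -(d : k)⁻¹ * (A l).trace = q l := by
    intro l
    have h0 : (A l + q l • 1) ^ n = 0 :=
      nil_of_act (comm_shift hc q) (shift_surj hc hs q) l n (hq _ (by simp))
    have h1 := (Matrix.isNilpotent_trace_of_isNilpotent ⟨n, h0⟩).eq_zero
    simp only [Matrix.trace_add, Matrix.trace_smul, Matrix.trace_one, hι, smul_eq_mul] at h1
    rw [eq_neg_of_add_eq_zero_left h1]
    have : (d : k) ≠ 0 := Nat.cast_ne_zero.2 hd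
    field_simp
  have : (fun l => A l + (-(d : k)⁻¹ * (A l).trace) • 1) = fun l => A l + q l • 1 :=
    funext fun l => by rw [key l]
  rw [← act_En, this, hq m hm]

lemma mem_TT [CharZero k] {d : ℕ} (hd : d ≠ 0) (n : ℕ) (ω : {ω : Idx d → k // IsStable ω}) :
    toHilb ω ∈ TT k d n ↔ ∀ m, degree m = n → En (matOf ω.1) (vecOf ω.1) (-(d : k)⁻¹) m = 0 := by
  have e : ∀ (q : Fin 3 → k) F, tr q F ∈ (toHilb ω).ideal ↔
      act (fun l => matOf ω.1 l + q l • 1) (vecOf ω.1) F = 0 := fun q F => by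
    rw [act_shift ω.2.1]; exact Iff.rfl
  constructor
  · rintro ⟨q, hq⟩
    exact En_eq_zero hd (Fintype.card_fin d) ω.2.1 ω.2.2 fun m hm => (e q _).1 (hq m hm)
  · intro h
    exact ⟨fun l => -(d : k)⁻¹ * (matOf ω.1 l).trace, fun m hm =>
      (e _ _).2 ((act_En _ _ _ _).trans (h m hm))⟩

lemma isClosed_TT [CharZero k] {d : ℕ} (hd : d ≠ 0) (n : ℕ) : IsClosed (TT k d n) := by
  let _ := zariski k (Idx d)
  rw [isClosed_coinduced]
  obtain ⟨P, hP⟩ : ∃ P : {m : Mon // degree m = n} × Fin d → MvPolynomial (Idx d) k,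
      ∀ ω : {ω : Idx d → k // IsStable ω}, toHilb ω ∈ TT k d n ↔ ∀ s, eval ω.1 (P s) = 0 := by
    refine ⟨fun s => En (matOf X) (vecOf X) (C (-(d : k)⁻¹)) s.1.1 s.2, fun ω => ?_⟩
    have h : ∀ m x, eval ω.1 (En (matOf X) (vecOf X) (C (-(d : k)⁻¹)) m x) =
        En (matOf ω.1) (vecOf ω.1) (-(d : k)⁻¹) m x := by
      intro m x
      have h1 : (fun l => (eval ω.1).mapMatrix (matOf X l)) = matOf ω.1 := by
        ext l x y
        simp [matOf]
      have h2 : (fun i => eval ω.1 (vecOf X i)) = vecOf ω.1 := by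
        ext i
        simp [vecOf]
      rw [map_En, h1, h2, eval_C]
    rw [mem_TT hd]
    exact ⟨fun h' s => (h _ _).trans (congrFun (h' _ s.1.2) _),
      fun h' m hm => funext fun x => (h _ _).symm.trans (h' (⟨m, hm⟩, x))⟩
  have : toHilb ⁻¹' TT k d n = Subtype.val ⁻¹' ⋂ s, {ω : Idx d → k | eval ω (P s) ≠ 0}ᶜ := by
    ext ω
    rw [Set.mem_preimage, hP]
    simp only [Set.mem_preimage, Set.mem_ofPred_eq, Set.mem_iInter, Set.mem_compl_iff, not_not]
  rw [this]
  exact (isClosed_iInter fun s => (zar_open (P s)).isClosed_compl).preimage continuous_subtype_val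

section points

variable (k) (B : Type) [CommRing B] [Algebra k B]

/-- the Zariski topology on the points of an algebra -/
@[reducible] def ptTop : TopologicalSpace (B →ₐ[k] k) :=
  TopologicalSpace.generateFrom {U | ∃ f : B, U = {χ | χ f ≠ 0}}

variable {k B}

lemma pt_open (f : B) : IsOpen[ptTop k B] {χ | χ f ≠ 0} :=
  TopologicalSpace.GenerateOpen.basic _ ⟨f, rfl⟩

lemma pt_continuous {σ : Type} (P : σ → B) :
    Continuous[ptTop k B, zariski k σ] fun χ s => χ (P s) := by
  let _ := ptTop k B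
  refine continuous_generateFrom_iff.2 ?_
  rintro _ ⟨f, rfl⟩
  convert pt_open (k := k) (aeval P f) using 1
  ext χ
  have e : χ (aeval P f) = eval (fun s => χ (P s)) f := by
    rw [comp_aeval_apply, aeval_eq_eval]
  simp [e]

lemma pt_irred [IsDomain B] (h : ∀ f : B, f ≠ 0 → ∃ χ : B →ₐ[k] k, χ f ≠ 0) :
    @IsPreirreducible _ (ptTop k B) Set.univ := by
  have key : ∀ U : Set (B →ₐ[k] k), IsOpen[ptTop k B] U → U.Nonempty →
      ∃ f : B, f ≠ 0 ∧ ∀ χ : B →ₐ[k] k, χ f ≠ 0 → χ ∈ U := by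
    intro U hU
    induction hU with
    | basic s hs =>
      obtain ⟨f, rfl⟩ := hs
      rintro ⟨x, hx⟩
      exact ⟨f, by rintro rfl; simp at hx, fun _ h => h⟩
    | univ => exact fun _ => ⟨1, one_ne_zero, fun _ _ => trivial⟩
    | inter s t _ _ hs ht =>
      intro hne
      obtain ⟨f, h1, h2⟩ := hs hne.left
      obtain ⟨g, h3, h4⟩ := ht hne.right
      refine ⟨f * g, mul_ne_zero h1 h3, fun x hx => ?_⟩
      rw [map_mul] at hx
      exact ⟨h2 x (left_ne_zero_of_mul hx), h4 x (right_ne_zero_of_mul hx)⟩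
    | sUnion S _ hS =>
      rintro ⟨x, s, hs, hx⟩
      obtain ⟨f, h1, h2⟩ := hS s hs ⟨x, hx⟩
      exact ⟨f, h1, fun y hy => ⟨s, hs, h2 y hy⟩⟩
  intro u v hu hv h1 h2
  obtain ⟨f, a1, a2⟩ := key u hu h1.right
  obtain ⟨g, b1, b2⟩ := key v hv h2.right
  obtain ⟨χ, hx⟩ := h _ (mul_ne_zero a1 b1)
  rw [map_mul] at hx
  exact ⟨χ, trivial, a2 χ (left_ne_zero_of_mul hx), b2 χ (right_ne_zero_of_mul hx)⟩

end points

theorem abstract [CharZero k] {d : ℕ} (hd : d = (p + 3).choose 3 + a) (ha : 1 ≤ a) {B : Type}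
    [CommRing B] [IsDomain B] [Algebra k B] (hB : ∀ f : B, f ≠ 0 → ∃ χ : B →ₐ[k] k, χ f ≠ 0)
    (low : Mon → Lo p → B) (Q : Fin a → Mon → B) (top : Fin 3 → Fin a → Ix p a → B)
    (r : Mon → Fin a → B) (q : Fin 3 → B)
    (hc : ∀ l l', Commute (Mx low Q top l) (Mx low Q top l'))
    (hcov : ∀ (Q₀ : Fin a → Mon → k) (r₀ : Mon → Fin a → k) (q₀ : Fin 3 → k), ∃ χ : B →ₐ[k] k,
      (fun m b => χ (low m b)) = 0 ∧ (fun l j i => χ (top l j i)) = 0 ∧
      (fun j m => χ (Q j m)) = Q₀ ∧ (fun m j => χ (r m j)) = r₀ ∧ (fun i => χ (q i)) = q₀)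
    (hg : gd p Q r ≠ 0)
    (hsp : ∃ m x, degree m = p + 2 ∧
      En (Mx low Q top) (vc low Q 0) (algebraMap k B (-(d : k)⁻¹)) m x ≠ 0) :
    ∃ Z : Set (Hilb k d), IsClosed Z ∧ IsIrreducible Z ∧ closure (VComp k d (p + 1) a) ⊂ Z := by
  have hcard := (card_Ix p a).trans hd.symm
  let e : Ix p a ≃ Fin d := Fintype.equivFinOfCardEq hcard
  let _ := ptTop k B
  let _ := zariski k (Idx d)
  have hc' : ∀ (χ : B →ₐ[k] k) l l', Commute
      (Mx (fun m b => χ (low m b)) (fun j m => χ (Q j m)) (fun l j i => χ (top l j i)) l)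
      (Mx (fun m b => χ (low m b)) (fun j m => χ (Q j m)) (fun l j i => χ (top l j i)) l') := by
    intro χ l l'
    have := (hc l l').map (χ : B →+* k).mapMatrix
    rwa [map_Mx, map_Mx] at this
  have hgd : ∀ χ : B →ₐ[k] k, χ (gd p Q r) =
      gd p (fun j m => χ (Q j m)) (fun m j => χ (r m j)) := fun χ => map_gd Q (χ : B →+* k) r
  let Φ : (B →ₐ[k] k) → Idx d → k := fun χ => Ph (fun m b => χ (low m b)) (fun j m => χ (Q j m))
    (fun l j i => χ (top l j i)) e fun i => χ (q i)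
  let U : Set (B →ₐ[k] k) := {χ | χ (gd p Q r) ≠ 0}
  let G : U → Hilb k d := fun T => toHilb ⟨Φ T.1, stable_Ph e _ (hc' _) (fun h => T.2 ((hgd T.1).trans h))⟩
  have hΦ : Continuous Φ := by
    convert pt_continuous (k := k) (Ph low Q top e q) using 1
    ext χ s
    exact (map_Ph low Q top (χ : B →+* k) e q s).symm
  have hH : Continuous (toHilb (k := k) (d := d)) := continuous_coinduced_rng
  have hG : Continuous G := hH.comp ((hΦ.comp continuous_subtype_val).subtype_mk _)
  have hmem : ∀ (T : U) F, F ∈ (G T).ideal ↔ act (Mx (fun m b => T.1 (low m b))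
      (fun j m => T.1 (Q j m)) (fun l j i => T.1 (top l j i)))
      (vc (fun m b => T.1 (low m b)) (fun j m => T.1 (Q j m)) 0) (tr (fun i => T.1 (q i)) F) = 0 :=
    fun T F => mem_idealOf_Ph e _ (hc' _) _ F
  obtain ⟨m₀, x₀, h₀, h₁⟩ := hsp
  obtain ⟨χ₀, hχ⟩ := hB _ (mul_ne_zero hg h₁)
  rw [map_mul] at hχ
  let T₀ : U := ⟨χ₀, left_ne_zero_of_mul hχ⟩
  have := Subtype.irreducibleSpace
    (⟨⟨T₀.1, T₀.2⟩, (pt_irred hB).open_subset (pt_open _) (Set.subset_univ _)⟩ : IsIrreducible U)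
  have hsub : VComp k d (p + 1) a ⊆ TT k d (p + 2) := by
    rintro J ⟨I, hI, q, hq⟩
    refine ⟨-q, fun m hm => ?_⟩
    rw [hq, Ideal.mem_comap]
    show tr q _ ∈ _
    rw [tr_tr, add_neg_cancel, tr_zero]
    exact (facts hd ha hI).1 ((monomial_mem_pow_idealOfVars_iff (p + 2) m one_ne_zero).2 hm.ge)
  refine ⟨closure (G '' Set.univ), isClosed_closure,
    ((IrreducibleSpace.isIrreducible_univ _).image G hG.continuousOn).closure,
    closure_mono fun J hJ => ?_, fun h => ?_⟩
  · obtain ⟨I, hI, q₀, hq⟩ := hJ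
    obtain ⟨h8, n, Q₀, hQ₀⟩ := facts hd ha hI
    obtain ⟨⟨r₀, hr⟩, hid⟩ := cover hd I h8 n Q₀ hQ₀
    obtain ⟨χ, t1, t2, t3, t4, t5⟩ := hcov Q₀ r₀ q₀
    let T : U := ⟨χ, by
      show χ (gd p Q r) ≠ 0
      rwa [hgd, t3, t4]⟩
    refine ⟨T, trivial, ?_⟩
    have hJ : (G T).ideal = J.ideal := by
      ext F
      rw [hmem, hq, Ideal.mem_comap, ← hid]
      simp only [T]
      rw [t1, t2, t3, t5]
      rfl
    generalize G T = J' at hJ
    obtain ⟨J, _, _⟩ := J
    obtain ⟨J', _, _⟩ := J'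
    simp only at hJ
    subst hJ
    rfl
  · obtain ⟨q', hq⟩ := closure_minimal hsub (isClosed_TT (by omega) _)
      (h (subset_closure ⟨T₀, trivial, rfl⟩))
    refine right_ne_zero_of_mul hχ ?_
    have h2 := En_eq_zero (by omega) hcard (hc' χ₀) (rho_surj (hc' χ₀) (fun h => T₀.2 ((hgd χ₀).trans h)))
      (q := (fun i => χ₀ (q i)) + q') (n := p + 2) (fun m hm => by
        rw [act_shift (hc' χ₀), ← tr_tr]
        exact (hmem T₀ _).1 (hq m hm)) m₀ h₀
    refine (map_En (χ₀ : B →+* k) _ _ _ _ _).trans ?_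
    simp only [map_Mx, map_vc, RingHom.coe_coe, AlgHom.commutes, Algebra.algebraMap_self,
      RingHom.id_apply]
    exact congrFun h2 x₀

end Pool.Agent.Lib.MP_851c4e_ag.Win
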