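import Mathlib
import Pool.Agent.Lib.MP_851c4e_ag.Win.Core

/-!
A deformation of the generic very compressed algebra, defined over the algebraic closure of the
function field of the parameter space, spreads out to an irreducible family.
-/

set_option autoImplicit false

namespace Pool.Agent.Lib.MP_851c4e_ag.Win

open MvPolynomial Matrix Topology
open Finsupp (degree degree_eq_sum)

variable {k : Type} [Field k] {p a : ℕ}

lemma lift_point [IsAlgClosed k] {π B : Type} [CommRing B] [Algebra k B]
    [Algebra (MvPolynomial π k) B] [IsScalarTower k (MvPolynomial π k) B]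
    [Algebra.IsIntegral (MvPolynomial π k) B]
    (hinj : Function.Injective (algebraMap (MvPolynomial π k) B)) (t : π → k) :
    ∃ χ : B →ₐ[k] k, ∀ P, χ (algebraMap (MvPolynomial π k) B P) = eval t P := by
  have hmax : (RingHom.ker (eval t : MvPolynomial π k →+* k)).IsMaximal :=
    RingHom.ker_isMaximal_of_surjective _ fun c => ⟨C c, eval_C c⟩
  obtain ⟨M, hM, hMt⟩ := Ideal.exists_ideal_over_maximal_of_isIntegral (S := B)
    (RingHom.ker (eval t : MvPolynomial π k →+* k))
    (by rw [(RingHom.injective_iff_ker_eq_bot _).1 hinj]; exact bot_le)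
  have hP : ∀ P, Ideal.Quotient.mk M (algebraMap (MvPolynomial π k) B P) =
      algebraMap k (B ⧸ M) (eval t P) := by
    intro P
    have h1 : P - C (eval t P) ∈ M.comap (algebraMap (MvPolynomial π k) B) := by
      rw [hMt, RingHom.mem_ker]; simp
    rw [Ideal.mem_comap, map_sub, ← Ideal.Quotient.eq] at h1
    rw [h1, ← MvPolynomial.algebraMap_eq, ← IsScalarTower.algebraMap_apply]
    rfl
  have : Algebra.IsIntegral k (B ⧸ M) := by
    refine ⟨fun x => ?_⟩
    obtain ⟨x, rfl⟩ := Ideal.Quotient.mk_surjective x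
    obtain ⟨P, h1, h2⟩ := Algebra.IsIntegral.isIntegral (R := MvPolynomial π k) x
    refine ⟨P.map (eval t), h1.map _, ?_⟩
    have h3 : (algebraMap k (B ⧸ M)).comp (eval t) =
        (Ideal.Quotient.mk M).comp (algebraMap (MvPolynomial π k) B) :=
      RingHom.ext fun P => (hP P).symm
    rw [Polynomial.eval₂_map, h3, ← Polynomial.hom_eval₂, h2, map_zero]
  let E := AlgEquiv.ofBijective (Algebra.ofId k (B ⧸ M))
    (IsAlgClosed.algebraMap_bijective_of_isIntegral (k := k))
  refine ⟨E.symm.toAlgHom.comp (Ideal.Quotient.mkₐ k M), fun P => ?_⟩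
  simp only [AlgHom.comp_apply, Ideal.Quotient.mkₐ_eq_mk, hP, AlgHom.commutes]
  rfl

lemma enough_points [IsAlgClosed k] {π B : Type} [CommRing B] [IsDomain B] [Algebra k B]
    [Algebra (MvPolynomial π k) B] [IsScalarTower k (MvPolynomial π k) B]
    [Algebra.IsIntegral (MvPolynomial π k) B]
    (hinj : Function.Injective (algebraMap (MvPolynomial π k) B)) (f : B) (hf : f ≠ 0) :
    ∃ χ : B →ₐ[k] k, χ f ≠ 0 := by
  obtain ⟨P, h1, h2⟩ := Submodule.exists_mem_ne_zero_of_ne_bot
    (Ideal.comap_ne_bot_of_integral_mem (R := MvPolynomial π k) hf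
      (Ideal.mem_span_singleton_self f) (Algebra.IsIntegral.isIntegral f))
  obtain ⟨t, ht⟩ : ∃ t : π → k, eval t P ≠ 0 := by
    by_contra hcon
    refine h2 (MvPolynomial.funext fun t => ?_)
    by_contra h0
    exact hcon ⟨t, h0⟩
  obtain ⟨χ, hχ⟩ := lift_point hinj t
  obtain ⟨g, hg⟩ := Ideal.mem_span_singleton'.1 (Ideal.mem_comap.1 h1)
  refine ⟨χ, fun h0 => ht ?_⟩
  rw [← hχ, ← hg, map_mul, h0, mul_zero]

lemma gd_single (Λ : Fin a → Mon) (hinj : Function.Injective Λ)
    (hΛ : ∀ j, Λ j ∈ MD (p + 1)) :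
    gd p (fun j m => if m = Λ j then (1 : k) else 0) (fun m j => if m = Λ j then 1 else 0) ≠ 0 := by
  have : (Matrix.of fun j j' : Fin a => ∑ m ∈ MD (p + 1),
      (if m = Λ j then (1 : k) else 0) * if m = Λ j' then 1 else 0) = 1 := by
    ext j j'
    simp [hΛ, Matrix.one_apply, hinj.eq_iff, eq_comm]
  rw [gd, this]; simp

/-- the columns of the last `a` basis vectors, scaled -/
def tp {R : Type} [CommRing R] (c : R) (tL : Fin 3 → Fin a → Lo p → R)
    (tW : Fin 3 → Fin a → Fin a → R) (l : Fin 3) (j : Fin a) : Ix p a → R :=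
  Sum.elim (fun b => c * c * tL l j b) fun i => c * tW l j i

/-- the graded algebra given by `Q` has a scaled deformation that is not killed by the `(p+2)`-th
power of a maximal ideal -/
def Deforms {K : Type} [Field K] (p : ℕ) (Q : Fin a → Mon → K) : Prop :=
  ∃ (low : Mon → Lo p → K) (tL : Fin 3 → Fin a → Lo p → K) (tW : Fin 3 → Fin a → Fin a → K),
    ∀ c : K, (∀ l l', Commute (Mx (fun m b => c * low m b) Q (tp c tL tW) l)
      (Mx (fun m b => c * low m b) Q (tp c tL tW) l')) ∧
      (c ≠ 0 → ∀ q : Fin 3 → K, ∃ m, degree m = p + 2 ∧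
        act (fun l => Mx (fun m b => c * low m b) Q (tp c tL tW) l + q l • 1)
          (vc (fun m b => c * low m b) Q 0) (monomial m 1) ≠ 0)

theorem generic [IsAlgClosed k] [CharZero k] {d : ℕ} (hd : d = (p + 3).choose 3 + a) (ha : 1 ≤ a)
    (ha' : a ≤ (p + 3).choose 2)
    (H : ∀ (K : Type) [Field K] [IsAlgClosed K] (Q : Fin a → Mon → K) (r : Mon → Fin a → K),
      gd p Q r ≠ 0 → Deforms p Q) :
    ∃ Z : Set (Hilb k d), IsClosed Z ∧ IsIrreducible Z ∧ closure (VComp k d (p + 1) a) ⊂ Z := by
  classical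
  let π : Type := Option ((Fin a × Mon) ⊕ (Mon × Fin a) ⊕ Fin 3)
  let A : Type := MvPolynomial π k
  let K : Type := AlgebraicClosure (FractionRing A)
  let B : Type := integralClosure A K
  have hAK : Function.Injective (algebraMap A K) := by
    rw [IsScalarTower.algebraMap_eq A (FractionRing A) K]
    exact (algebraMap (FractionRing A) K).injective.comp (IsFractionRing.injective A _)
  have hinj : Function.Injective (algebraMap A B) := fun x y h =>
    hAK (congrArg Subtype.val h)
  let ι : B →+* K := (integralClosure A K).val.toRingHom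
  have hι : Function.Injective ι := Subtype.val_injective
  let QB : Fin a → Mon → B := fun j m => algebraMap A B (X (some (Sum.inl (j, m))))
  let rB : Mon → Fin a → B := fun m j => algebraMap A B (X (some (Sum.inr (Sum.inl (m, j)))))
  let qB : Fin 3 → B := fun i => algebraMap A B (X (some (Sum.inr (Sum.inr i))))
  have hg : gd p QB rB ≠ 0 := by
    obtain ⟨Λ⟩ : Nonempty (Fin a ↪ MD (p + 1)) :=
      Function.Embedding.nonempty_of_card_le (by simpa [card_MD'] using ha')
    obtain ⟨χ, hχ⟩ := lift_point (k := k) hinj fun s => s.elim 0 (Sum.elim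
      (fun s => if s.2 = (Λ s.1).1 then 1 else 0) (Sum.elim
        (fun s => if s.1 = (Λ s.2).1 then 1 else 0) 0))
    intro h0
    refine gd_single (k := k) _ (Subtype.val_injective.comp Λ.injective) (fun j => (Λ j).2) ?_
    have := map_gd (p := p) QB (χ : B →+* k) rB
    rw [h0, map_zero] at this
    simp only [QB, rB, RingHom.coe_coe] at this
    simp only [A, hχ, eval_X] at this
    exact this.symm
  obtain ⟨low, tL, tW, hD⟩ := H K (fun j m => ι (QB j m)) (fun m j => ι (rB m j))
    (by rw [← map_gd]; exact (map_ne_zero_iff ι hι).2 hg)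
  have halg : Algebra.IsAlgebraic A K := IsFractionRing.comap_isAlgebraic_iff
    (A := A) (K := FractionRing A) (C := K) |>.2 inferInstance
  obtain ⟨δ, hδ, hint⟩ := Algebra.IsAlgebraic.exists_integral_multiples A (A := K)
    ((Finset.univ.image fun s : MD (p + 1) × Lo p => low s.1.1 s.2) ∪
      (Finset.univ.image fun s : Fin 3 × Fin a × Lo p => tL s.1 s.2.1 s.2.2) ∪
      Finset.univ.image fun s : Fin 3 × Fin a × Fin a => tW s.1 s.2.1 s.2.2)
  let cB : B := algebraMap A B (X none)
  let δB : B := algebraMap A B δ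
  let lowB : Mon → Lo p → B := fun m b => if h : m ∈ MD (p + 1) then
    ⟨δ • low m b, hint _ (Finset.mem_union_left _ (Finset.mem_union_left _
      (Finset.mem_image.2 ⟨(⟨m, h⟩, b), Finset.mem_univ _, rfl⟩)))⟩ else 0
  let tLB : Fin 3 → Fin a → Lo p → B := fun l j b =>
    ⟨δ • tL l j b, hint _ (Finset.mem_union_left _ (Finset.mem_union_right _
      (Finset.mem_image.2 ⟨(l, j, b), Finset.mem_univ _, rfl⟩)))⟩
  let tWB : Fin 3 → Fin a → Fin a → B := fun l j i =>
    ⟨δ • tW l j i, hint _ (Finset.mem_union_right _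
      (Finset.mem_image.2 ⟨(l, j, i), Finset.mem_univ _, rfl⟩))⟩
  have hL : ∀ l j b, ι (tLB l j b) = ι δB * tL l j b := fun l j b => Algebra.smul_def δ _
  have hW : ∀ l j i, ι (tWB l j i) = ι δB * tW l j i := fun l j i => Algebra.smul_def δ _
  have hlow : ∀ m b, degree m = p + 1 → ι (lowB m b) = ι δB * low m b := fun m b hm => by
    simp only [lowB, dif_pos (mem_MD.2 hm)]
    exact Algebra.smul_def δ _
  clear_value lowB tLB tWB
  have hc0 : ι cB * ι δB ≠ 0 := by
    rw [← map_mul, map_ne_zero_iff ι hι]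
    exact mul_ne_zero ((map_ne_zero_iff _ hinj).2 (X_ne_zero _)) ((map_ne_zero_iff _ hinj).2 hδ)
  obtain ⟨hD1, hD2⟩ := hD (ι cB * ι δB)
  have hv : vc (fun m b => ι (cB * lowB m b)) (fun j m => ι (QB j m)) =
      vc (fun m b => ι cB * ι δB * low m b) (fun j m => ι (QB j m)) :=
    vc_congr _ fun m hm => funext fun b => by rw [map_mul, hlow m b hm, mul_assoc]
  have hM : ∀ l, ι.mapMatrix (Mx (fun m b => cB * lowB m b) QB
      (tp cB (fun l j b => δB * tLB l j b) tWB) l) =
      Mx (fun m b => ι cB * ι δB * low m b) (fun j m => ι (QB j m)) (tp (ι cB * ι δB) tL tW) l := by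
    intro l
    rw [map_Mx, Mx, Mx, hv]
    ext x (y | y)
    · rfl
    · rcases x with x | x
      · simp only [tp, Matrix.of_apply, Sum.elim_inr, Sum.elim_inl, map_mul, hL]
        ring
      · simp only [tp, Matrix.of_apply, Sum.elim_inr, map_mul, hW]
        ring
  refine abstract hd ha (B := B) (enough_points (k := k) hinj) (fun m b => cB * lowB m b) QB
    (tp cB (fun l j b => δB * tLB l j b) tWB) rB qB (fun l l' => ?_) (fun Q₀ r₀ q₀ => ?_) hg ?_
  · refine Matrix.map_injective hι ?_
    have := hD1 l l'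
    rw [← hM, ← hM, Commute, SemiconjBy, ← map_mul, ← map_mul] at this
    exact this
  · obtain ⟨χ, hχ⟩ := lift_point (k := k) hinj fun s => s.elim 0 (Sum.elim
      (fun s => Q₀ s.1 s.2) (Sum.elim (fun s => r₀ s.1 s.2) q₀))
    have h0 : χ cB = 0 := (hχ _).trans (eval_X _)
    refine ⟨χ, ?_, ?_, ?_, ?_, ?_⟩
    · ext m b
      simp [h0]
    · ext l j (i | i) <;> simp [tp, h0]
    · ext j m
      exact (hχ _).trans (eval_X _)
    · ext m j
      exact (hχ _).trans (eval_X _)
    · ext i
      exact (hχ _).trans (eval_X _)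
  · obtain ⟨m, hm, hne⟩ := hD2 hc0 fun l => ι (algebraMap k B (-(d : k)⁻¹)) *
      (Mx (fun m b => ι cB * ι δB * low m b) (fun j m => ι (QB j m))
        (tp (ι cB * ι δB) tL tW) l).trace
    rw [act_En] at hne
    obtain ⟨x, hx⟩ := Function.ne_iff.1 hne
    refine ⟨m, x, hm, fun h0 => hx ?_⟩
    have := congrArg ι h0
    rw [map_En, map_zero] at this
    simp only [hM, map_vc, hv] at this
    exact this

end Pool.Agent.Lib.MP_851c4e_ag.Win
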