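import Mathlib
import Pool.Agent.Lib.MP_851c4e_ag.Win.Gen

/-!
Deformations `g ↦ g + c ∑ lam_κ(g) f_κ` of a very compressed algebra.
-/

set_option autoImplicit false

namespace Pool.Agent.Lib.MP_851c4e_ag.Win

open MvPolynomial Matrix Topology
open Finsupp (degree degree_eq_sum)

variable {K : Type} [Field K] {p a : ℕ} {Kp Ic : Type} [Fintype Kp] [Fintype Ic]

/-- the class of a form of degree `p + 1` with given values of the functionals -/
noncomputable def zv (p : ℕ) (c : K) (f : Kp → Mon → K) : (Kp ⊕ Fin a → K) →ₗ[K] (Ix p a → K) where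
  toFun u := Sum.elim
    (fun b => c * if degree b.1 = p then -∑ κ, u (Sum.inl κ) * f κ b.1 else 0) fun j => u (Sum.inr j)
  map_add' u v := by
    ext (b | j)
    · simp only [Sum.elim_inl, Pi.add_apply, add_mul, Finset.sum_add_distrib]
      split_ifs <;> ring
    · simp
  map_smul' t u := by
    ext (b | j)
    · simp only [Sum.elim_inl, Pi.smul_apply, smul_eq_mul, RingHom.id_apply, mul_assoc,
        ← Finset.mul_sum]
      split_ifs <;> ring
    · simp

theorem deforms_of_data (ha : 1 ≤ a) {Q : Fin a → Mon → K} {r : Mon → Fin a → K}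
    (hg : gd p Q r ≠ 0) (lam f : Kp → Mon → K) (F : Ic → Mon → K)
    (ε : Ic → Fin 3 → Kp ⊕ Fin a → K) (w : Ic → Kp ⊕ Fin a → K)
    (h1 : ∀ i l m, degree m = p + 1 →
      F i (m + Finsupp.single l 1) = ∑ s, ε i l s * Sum.elim lam Q s m)
    (h2 : ∀ l κ s, ∑ m ∈ MD p, f κ m * Sum.elim lam Q s (m + Finsupp.single l 1) =
      ∑ i, ε i l (Sum.inl κ) * w i s)
    (h3 : (∀ i l j, ε i l (Sum.inr j) = 0) ∨ ∀ i i' l, ∑ s, ε i' l s * w i s = 0)
    (h4 : ∃ m, degree m = p + 2 ∧ ((∃ j, ∑ i, F i m * w i (Sum.inr j) ≠ 0) ∨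
      ∃ b ∈ MD p, ∑ κ, (∑ i, F i m * w i (Sum.inl κ)) * f κ b ≠ 0)) : Deforms p Q := by
  classical
  let low : Mon → Lo p → K := fun m b => if degree b.1 = p then -∑ κ, lam κ m * f κ b.1 else 0
  let tL : Fin 3 → Fin a → Lo p → K := fun l j b => if degree b.1 = p then
    ∑ i, ε i l (Sum.inr j) * ∑ κ, w i (Sum.inl κ) * f κ b.1 else 0
  let tW : Fin 3 → Fin a → Fin a → K := fun l j j' => -∑ i, ε i l (Sum.inr j) * w i (Sum.inr j')
  refine ⟨low, tL, tW, fun c => ?_⟩
  have htp : ∀ l j, tp c tL tW l j = ∑ i, (-c * ε i l (Sum.inr j)) • zv p c f (w i) := by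
    intro l j
    ext (b | j')
    · simp only [tp, tL, zv, Sum.elim_inl, Finset.sum_apply, Pi.smul_apply, LinearMap.coe_mk,
        AddHom.coe_mk, smul_eq_mul]
      split_ifs
      · rw [Finset.mul_sum]
        exact Finset.sum_congr rfl fun _ _ => by ring
      · simp
    · simp only [tp, tW, zv, Sum.elim_inr, Finset.sum_apply, Pi.smul_apply, LinearMap.coe_mk,
        AddHom.coe_mk, smul_eq_mul, mul_neg, Finset.mul_sum, ← Finset.sum_neg_distrib]
      exact Finset.sum_congr rfl fun _ _ => by ring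
  have hvc : ∀ m, degree m = p + 1 →
      vc (fun m b => c * low m b) Q m = zv p c f fun s => Sum.elim lam Q s m := by
    intro m hm
    rw [vc_mid _ _ hm]
    rfl
  have hf : (Lo p).filter (fun m' => degree m' = p) = MD p := by
    ext m'
    simp only [Finset.mem_filter, mem_Lo, mem_MD]
    omega
  have Mz : ∀ l u, Mx (fun m b => c * low m b) Q (tp c tL tW) l *ᵥ zv p c f u =
      ∑ i, (-c * ∑ s, ε i l s * u s) • zv p c f (w i) := by
    intro l u
    have e : ∀ b : Lo p, zv p c f u (Sum.inl b) •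
        vc (fun m b => c * low m b) Q (b.1 + Finsupp.single l 1) =
        if degree b.1 = p then ∑ κ, (-c * u (Sum.inl κ)) • f κ b.1 •
          zv p c f fun s => Sum.elim lam Q s (b.1 + Finsupp.single l 1) else 0 := by
      intro b
      simp only [zv, LinearMap.coe_mk, AddHom.coe_mk, Sum.elim_inl]
      split_ifs with hb
      · rw [hvc _ (by simp [hb])]
        simp only [smul_smul, ← Finset.sum_smul, mul_assoc, ← Finset.mul_sum, neg_mul, mul_neg,
          Finset.sum_neg_distrib]
        rfl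
      · simp
    have e2 : ∀ κ, ∑ m ∈ MD p, f κ m •
        zv p c f (fun s => Sum.elim lam Q s (m + Finsupp.single l 1)) =
        ∑ i, ε i l (Sum.inl κ) • zv p c f (w i) := by
      intro κ
      simp only [← map_smul, ← map_sum]
      congr 1
      ext s
      simpa [Finset.sum_apply] using h2 l κ s
    rw [Mx_mulVec]
    simp only [e, htp]
    rw [Finset.sum_coe_sort (Lo p) fun m' => if degree m' = p then
      ∑ κ, (-c * u (Sum.inl κ)) • f κ m' •
        zv p c f fun s => Sum.elim lam Q s (m' + Finsupp.single l 1) else 0,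
      ← Finset.sum_filter, hf, Finset.sum_comm]
    simp only [← Finset.smul_sum, e2]
    simp only [Finset.smul_sum, smul_smul]
    rw [Finset.sum_comm, Finset.sum_comm (s := (Finset.univ : Finset (Fin a))),
      ← Finset.sum_add_distrib]
    refine Finset.sum_congr rfl fun i _ => ?_
    rw [← Finset.sum_smul, ← Finset.sum_smul, ← add_smul, Fintype.sum_sum_type, mul_add,
      Finset.mul_sum, Finset.mul_sum]
    congr 2
    · exact Finset.sum_congr rfl fun _ _ => by ring
    · refine Finset.sum_congr rfl fun _ _ => ?_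
      simp only [zv, LinearMap.coe_mk, AddHom.coe_mk, Sum.elim_inr]
      ring
  have Mv : ∀ l m, degree m = p + 1 →
      Mx (fun m b => c * low m b) Q (tp c tL tW) l *ᵥ vc (fun m b => c * low m b) Q m =
      ∑ i, (-c * F i (m + Finsupp.single l 1)) • zv p c f (w i) := by
    intro l m hm
    rw [hvc m hm, Mz]
    simp only [h1 _ l m hm]
  have hc : ∀ l l', Commute (Mx (fun m b => c * low m b) Q (tp c tL tW) l)
      (Mx (fun m b => c * low m b) Q (tp c tL tW) l') := by
    refine Mx_comm _ _ _ (fun l l' m hm => ?_) fun l l' j => ?_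
    · rw [Mv l _ (by simp [hm]), Mv l' _ (by simp [hm]), add_right_comm]
    · rw [htp, htp]
      rcases h3 with h3 | h3
      · simp [h3]
      · simp only [Matrix.mulVec_sum, Matrix.mulVec_smul, Mz, h3, mul_zero, zero_smul,
          Finset.sum_const_zero, smul_zero]
  refine ⟨hc, fun hc0 q => ?_⟩
  by_contra hcon
  have hcon' : ∀ m, degree m = p + 2 → act (fun l => Mx (fun m b => c * low m b) Q
      (tp c tL tW) l + q l • 1) (vc (fun m b => c * low m b) Q 0) (monomial m 1) = 0 := by
    intro m hm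
    by_contra h0
    exact hcon ⟨m, hm, h0⟩
  obtain ⟨m, hm, hne⟩ := h4
  have hY : ∑ i, (-c * F i m) • zv p c f (w i) ≠ (0 : Ix p a → K) := by
    have e : ∑ i, (-c * F i m) • zv p c f (w i) =
        -c • zv (a := a) p c f (fun s => ∑ i, F i m * w i s) := by
      simp only [← map_smul, ← map_sum]
      congr 1
      ext s
      simp [Finset.sum_apply, Finset.mul_sum, mul_assoc]
    rw [e]
    refine smul_ne_zero (neg_ne_zero.2 hc0) fun h0 => ?_
    rcases hne with ⟨j, hj⟩ | ⟨b, hb, hb'⟩
    · exact hj (congrFun h0 (Sum.inr j))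
    · have := congrFun h0 (Sum.inl ⟨b, mem_Lo.2 (mem_MD.1 hb).le⟩)
      simp only [zv, LinearMap.coe_mk, AddHom.coe_mk, Sum.elim_inl, mem_MD.1 hb, if_true,
        Pi.zero_apply, mul_eq_zero, hc0, false_or, neg_eq_zero] at this
      exact hb' this
  have hq0 : q = 0 := by
    ext l
    have hn := nil_of_act (comm_shift hc q) (shift_surj hc (rho_surj hc hg) q) l (p + 2)
      (hcon' _ (by simp))
    rcases h3 with h3 | h3
    · have := eigen_of_nil (μ := 0) hn (x := zv p c f (Sum.elim 0 1))
        (fun e => one_ne_zero (congrFun e (Sum.inr ⟨0, ha⟩))) (by rw [Mz]; simp [h3])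
      simpa using this
    · have := eigen_of_nil (μ := 0) hn hY (by
        simp only [Matrix.mulVec_sum, Matrix.mulVec_smul, Mz, h3, mul_zero, zero_smul,
          Finset.sum_const_zero, smul_zero])
      simpa using this
  obtain ⟨m', l, hd, rfl⟩ := split_mon hm
  have e : (monomial (m' + Finsupp.single l 1) 1 : PS K) = X l * monomial m' 1 := by
    rw [X, monomial_mul, one_mul, add_comm]
  have h0 := hcon' _ hm
  rw [act_shift hc, hq0, tr_zero, e, act_X_mul hc, rho_mon hc _ (Or.inl hd.le), Mv l _ hd] at h0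
  exact hY h0

end Pool.Agent.Lib.MP_851c4e_ag.Win
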