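import Mathlib

/-!
Linear algebra of triples of linear maps.
-/

set_option autoImplicit false

namespace Pool.Agent.Lib.MP_851c4e_ag.Win

variable {K : Type} [Field K] {V W : Type} [AddCommGroup V] [Module K V] [AddCommGroup W]
  [Module K W]

lemma pencil [IsAlgClosed K] [FiniteDimensional K V] [FiniteDimensional K W]
    (h : Module.finrank K W ≤ Module.finrank K V) (h1 : 0 < Module.finrank K V)
    (X Z : V →ₗ[K] W) : ∃ f : V, f ≠ 0 ∧ (Z f = 0 ∨ ∃ μ : K, X f = μ • Z f) := by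
  by_cases hZ : Function.Injective Z
  · have := LinearMap.finrank_le_finrank_of_injective hZ
    let E := LinearMap.linearEquivOfInjective Z hZ (by omega)
    have : Nontrivial V := Module.nontrivial_of_finrank_pos (R := K) h1
    obtain ⟨μ, hμ⟩ := Module.End.exists_eigenvalue (E.symm.toLinearMap ∘ₗ X)
    obtain ⟨f, hf⟩ := hμ.exists_hasEigenvector
    refine ⟨f, hf.2, Or.inr ⟨μ, ?_⟩⟩
    have := congrArg E hf.apply_eq_smul
    simpa [E] using this
  · rw [← LinearMap.ker_eq_bot] at hZ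
    obtain ⟨f, hf, hne⟩ := Submodule.exists_mem_ne_zero_of_ne_bot hZ
    exact ⟨f, hne, Or.inl hf⟩

lemma rank_one [IsAlgClosed K] [FiniteDimensional K V] [FiniteDimensional K W]
    (h : 2 * Module.finrank K W ≤ Module.finrank K V) (h1 : 0 < Module.finrank K V)
    (L : Fin 3 → V →ₗ[K] W) :
    ∃ f : V, f ≠ 0 ∧ L 1 f = 0 ∧ (L 2 f = 0 ∨ ∃ μ : K, L 0 f = μ • L 2 f) := by
  have hK := (L 1).finrank_range_add_finrank_ker
  have hr := (LinearMap.range (L 1)).finrank_le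
  obtain ⟨f, h2, h3⟩ := pencil (V := LinearMap.ker (L 1)) (W := W) (by omega) (by omega)
    (L 0 ∘ₗ (LinearMap.ker (L 1)).subtype) (L 2 ∘ₗ (LinearMap.ker (L 1)).subtype)
  exact ⟨f.1, fun h0 => h2 (Subtype.ext h0), f.2, h3⟩

/-- no nonzero vector whose three images span at most a line -/
def NoLine (L : Fin 3 → V →ₗ[K] W) : Prop :=
  ∀ (f : V) (u : Fin 3 → K) (w : W), u ≠ 0 → (∀ l, L l f = u l • w) → f = 0

lemma not_noLine [IsAlgClosed K] [FiniteDimensional K V] [FiniteDimensional K W]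
    (h : 2 * Module.finrank K W ≤ Module.finrank K V) (h1 : 0 < Module.finrank K V)
    (L : Fin 3 → V →ₗ[K] W) : ¬ NoLine L := by
  intro hL
  obtain ⟨f, h2, h3, h4 | ⟨μ, h4⟩⟩ := rank_one h h1 L
  · refine h2 (hL f ![1, 0, 0] (L 0 f) (fun e => by simpa using congrFun e 0) fun l => ?_)
    fin_cases l <;> simp [h3, h4]
  · refine h2 (hL f ![μ, 0, 1] (L 2 f) (fun e => by simpa using congrFun e 2) fun l => ?_)
    fin_cases l <;> simp [h3, h4]

lemma chain_indep [IsAlgClosed K] [FiniteDimensional K V] {L : Fin 3 → V →ₗ[K] W} (hA : NoLine L)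
    {r : ℕ} (f : Fin r → V) (y : Fin (r + 1) → W) (h0 : ∀ κ, L 0 (f κ) = y κ.castSucc)
    (h1 : ∀ κ, L 1 (f κ) = y κ.succ) (h2 : ∀ κ, L 2 (f κ) = 0) (hne : f ≠ 0) (v : Fin r → K)
    (hv : ∑ κ, v κ • f κ = 0) : v = 0 := by
  classical
  by_contra hv0
  obtain ⟨j, hj, hmax⟩ := (Finset.univ.filter fun κ => v κ ≠ 0).exists_max_image id (by
    obtain ⟨κ, hκ⟩ := Function.ne_iff.1 hv0
    exact ⟨κ, Finset.mem_filter.2 ⟨Finset.mem_univ _, hκ⟩⟩)
  have hj' := (Finset.mem_filter.1 hj).2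
  let U : Submodule K V := Submodule.span K (f '' {κ | κ < j})
  have hlt : ∀ κ, κ < j → f κ ∈ U := fun κ hκ => Submodule.subset_span ⟨κ, hκ, rfl⟩
  have hjU : f j ∈ U := by
    rw [← U.smul_mem_iff hj', ← Finset.add_sum_erase _ _ (Finset.mem_univ j)] at *
    rw [eq_neg_of_add_eq_zero_left hv]
    refine U.neg_mem (U.sum_mem fun κ hκ => ?_)
    by_cases h : v κ = 0
    · simp [h]
    · exact U.smul_mem _ (hlt κ (lt_of_le_of_ne
        (hmax κ (Finset.mem_filter.2 ⟨Finset.mem_univ _, h⟩)) (Finset.ne_of_mem_erase hκ)))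
  have hle : ∀ κ, κ ≤ j → f κ ∈ U := fun κ hκ => hκ.eq_or_lt.elim (fun e => e ▸ hjU) (hlt κ)
  have hinj : ∀ x, L 0 x = 0 → L 2 x = 0 → x = 0 := fun x a b =>
    hA x ![0, 1, 0] (L 1 x) (fun e => by simpa using congrFun e 1) fun l => by
      fin_cases l <;> simp [a, b]
  have hU : ∀ x ∈ U, L 2 x = 0 ∧ L 1 x ∈ LinearMap.range (L 0 ∘ₗ U.subtype) := by
    intro x hx
    induction hx using Submodule.span_induction with
    | mem x hx =>
      obtain ⟨κ, hκ, rfl⟩ := hx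
      have hκ' : κ.1 < j.1 := hκ
      refine ⟨h2 κ, ⟨f ⟨κ.1 + 1, by omega⟩, hle _ hκ'⟩, ?_⟩
      rw [h1]
      exact h0 _
    | zero => simp
    | add x y _ _ a b => exact ⟨by simp [a.1, b.1], by simpa using Submodule.add_mem _ a.2 b.2⟩
    | smul c x _ a => exact ⟨by simp [a.1], by simpa using Submodule.smul_mem _ c a.2⟩
  by_cases hb : U = ⊥
  · refine hne (funext fun ⟨κ, hκ⟩ => ?_)
    induction κ with
    | zero => exact (Submodule.eq_bot_iff _).1 hb _ (hle _ (Nat.zero_le _))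
    | succ κ ih =>
      refine hinj _ ?_ (h2 _)
      have e : L 1 (f ⟨κ, by omega⟩) = 0 := by rw [ih (by omega)]; simp
      rw [h0, ← e, h1]
      rfl
  · obtain ⟨x, hx, h | ⟨μ, h⟩⟩ := pencil (V := U) (W := LinearMap.range (L 0 ∘ₗ U.subtype))
      (LinearMap.finrank_range_le _) (Nat.pos_of_ne_zero fun h => hb (Submodule.finrank_eq_zero.1 h))
      ((L 1 ∘ₗ U.subtype).codRestrict _ fun x => (hU x.1 x.2).2) (L 0 ∘ₗ U.subtype).rangeRestrict
    · exact hx (Subtype.ext (hinj _ (congrArg Subtype.val h) (hU x.1 x.2).1))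
    · have h' : L 1 x.1 = μ • L 0 x.1 := congrArg Subtype.val h
      refine hx (Subtype.ext (hA x.1 ![1, μ, 0] (L 0 x.1) (fun e => by simpa using congrFun e 0)
        fun l => ?_))
      fin_cases l <;> simp [h', (hU x.1 x.2).1]

end Pool.Agent.Lib.MP_851c4e_ag.Win
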