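import Mathlib
import Pool.Agent.Lib.MP_851c4e_ag.Win.Fam
import Pool.Agent.Lib.MP_851c4e_ag.Win.Lin

/-!
The linear systems whose solutions are the data of the deformations.
-/

set_option autoImplicit false

namespace Pool.Agent.Lib.MP_851c4e_ag.Win

open MvPolynomial Matrix Topology
open Finsupp (degree degree_eq_sum)

variable {K : Type} [Field K] {p a : ℕ}

/-- extension by zero -/
noncomputable def ext0 {n : ℕ} (f : MD n → K) : Mon → K := Function.extend Subtype.val f 0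

lemma ext0_val {n : ℕ} (f : MD n → K) (m : MD n) : ext0 f m.1 = f m :=
  Subtype.val_injective.extend_apply _ _ m

lemma sum_ext0 {n : ℕ} (f : MD n → K) (g : Mon → K) :
    ∑ m ∈ MD n, ext0 f m * g m = ∑ m : MD n, f m * g m.1 := by
  rw [← Finset.sum_coe_sort (MD n)]
  simp only [ext0_val]

/-- multiplication by `x_l` from degree `p` to the last degree -/
noncomputable def LQ (p : ℕ) (Q : Fin a → Mon → K) (l : Fin 3) : (MD p → K) →ₗ[K] (Fin a → K) :=
  Matrix.toLin' (Matrix.of fun j m => Q j (m.1 + Finsupp.single l 1))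

lemma LQ_apply (Q : Fin a → Mon → K) (l : Fin 3) (f : MD p → K) (j : Fin a) :
    LQ p Q l f j = ∑ m : MD p, f m * Q j (m.1 + Finsupp.single l 1) := by
  simp [LQ, Matrix.mulVec, dotProduct, mul_comm]

/-- the value of a monomial -/
def ev (u : Fin 3 → K) (m : Mon) : K := u 0 ^ m 0 * u 1 ^ m 1 * u 2 ^ m 2

lemma ev_add (u : Fin 3 → K) (m : Mon) (l : Fin 3) :
    ev u (m + Finsupp.single l 1) = u l * ev u m := by
  fin_cases l <;> simp [ev, pow_succ] <;> ring

lemma ev_single (u : Fin 3 → K) (l : Fin 3) (n : ℕ) : ev u (Finsupp.single l n) = u l ^ n := by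
  fin_cases l <;> simp [ev]

lemma exists_ev [Infinite K] (hp : 1 ≤ p) {f : MD p → K} (hf : f ≠ 0) :
    ∃ u : Fin 3 → K, u ≠ 0 ∧ ∑ m : MD p, f m * ev u m.1 ≠ 0 := by
  classical
  let P : PS K := ∑ m : MD p, monomial m.1 (f m)
  have hP : ∀ u, eval u P = ∑ m : MD p, f m * ev u m.1 := by
    intro u
    simp only [P, map_sum, eval_monomial, ev]
    refine Finset.sum_congr rfl fun m _ => ?_
    rw [Finsupp.prod_fintype _ _ (by simp), Fin.prod_univ_three]
  obtain ⟨u, hu⟩ : ∃ u, eval u P ≠ 0 := by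
    by_contra hcon
    have h0 : P = 0 := MvPolynomial.funext fun t => by
      by_contra h0
      exact hcon ⟨t, h0⟩
    refine hf (funext fun m => ?_)
    have := congrArg (coeff m.1) h0
    simpa [P, coeff_sum, coeff_monomial, Subtype.val_inj] using this
  refine ⟨u, ?_, hP u ▸ hu⟩
  rintro rfl
  refine hu ((hP 0).trans (Finset.sum_eq_zero fun m _ => ?_))
  obtain ⟨n, rfl⟩ : ∃ n, p = n + 1 := ⟨p - 1, by omega⟩
  obtain ⟨m', l, -, h⟩ := split_mon (mem_MD.1 m.2)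
  rw [h, ev_add]
  simp

theorem defA [Infinite K] (ha : 1 ≤ a) (hp : 1 ≤ p) {Q : Fin a → Mon → K} {r : Mon → Fin a → K}
    (hg : gd p Q r ≠ 0) (h : ¬ NoLine (LQ p Q)) : Deforms p Q := by
  obtain ⟨f, u, w, hu, hL, hf, hw⟩ : ∃ (f : MD p → K) (u : Fin 3 → K) (w : Fin a → K), u ≠ 0 ∧
      (∀ l, LQ p Q l f = u l • w) ∧ f ≠ 0 ∧ (w ≠ 0 ∨ ∑ m : MD p, f m * ev u m.1 ≠ 0) := by
    simp only [NoLine, not_forall] at h
    obtain ⟨f, u, w, hu, hL, hf⟩ := h
    by_cases hw : w = 0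
    · obtain ⟨u', h1, h2⟩ := exists_ev hp hf
      exact ⟨f, u', 0, h1, fun l => by rw [hL l, hw]; simp, hf, Or.inr h2⟩
    · exact ⟨f, u, w, hu, hL, hf, Or.inl hw⟩
  obtain ⟨l₀, hl⟩ := Function.ne_iff.1 hu
  obtain ⟨b, hb⟩ := Function.ne_iff.1 hf
  have he : ev u (Finsupp.single l₀ (p + 2)) ≠ 0 := by rw [ev_single]; exact pow_ne_zero _ hl
  refine deforms_of_data (Kp := Unit) (Ic := Unit) ha hg (fun _ => ev u) (fun _ => ext0 f)
    (fun _ => ev u) (fun _ l => Sum.elim (fun _ => u l) 0)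
    (fun _ => Sum.elim (fun _ => ∑ m : MD p, f m * ev u m.1) w) (fun _ l m _ => by simp [ev_add])
    (fun l _ s => ?_) (Or.inl fun _ _ _ => rfl) ⟨Finsupp.single l₀ (p + 2), by simp, ?_⟩
  · rw [sum_ext0]
    rcases s with s | j
    · simp [ev_add, Finset.mul_sum, mul_left_comm]
    · simpa [LQ_apply] using congrFun (hL l) j
  · rcases hw with hw | hw
    · obtain ⟨j, hj⟩ := Function.ne_iff.1 hw
      exact Or.inl ⟨j, by simpa [-Finsupp.single_add] using ⟨he, hj⟩⟩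
    · exact Or.inr ⟨b.1, b.2, by simpa [ext0_val, -Finsupp.single_add] using ⟨⟨he, hw⟩, hb⟩⟩

/-- the forms of degree `p + 1` killed by `Q` generate all forms of degree `p + 2` -/
def NoUp (p : ℕ) (Q : Fin a → Mon → K) : Prop :=
  ∀ (Φ : Mon → K) (φ : Fin 3 → Fin a → K),
    (∀ l m, degree m = p + 1 → Φ (m + Finsupp.single l 1) = ∑ j, φ l j * Q j m) →
    ∀ m ∈ MD (p + 2), Φ m = 0

theorem defB (ha : 4 ≤ a) {Q : Fin a → Mon → K} {r : Mon → Fin a → K}
    (hg : gd p Q r ≠ 0) (h : ¬ NoUp p Q) : Deforms p Q := by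
  simp only [NoUp, not_forall] at h
  obtain ⟨Φ, φ, h1, m, hm, hne⟩ := h
  obtain ⟨σ, hσ, hσ0⟩ := Submodule.exists_mem_ne_zero_of_ne_bot
    (LinearMap.ker_ne_bot_of_finrank_lt (f := Matrix.toLin' (Matrix.of φ)) (by simp; omega))
  obtain ⟨j, hj⟩ := Function.ne_iff.1 hσ0
  refine deforms_of_data (Kp := Empty) (Ic := Unit) (by omega) hg Empty.elim Empty.elim
    (fun _ => Φ) (fun _ l => Sum.elim Empty.elim (φ l)) (fun _ => Sum.elim Empty.elim σ)
    (fun _ l m hm => by simp [h1 l m hm]) (fun _ κ => κ.elim) (Or.inr fun _ _ l => ?_)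
    ⟨m, mem_MD.1 hm, Or.inl ⟨j, by simpa using ⟨hne, hj⟩⟩⟩
  simpa [Matrix.mulVec, dotProduct] using congrFun (LinearMap.mem_ker.1 hσ) l

/-- the span of the functionals `Q j` -/
noncomputable def PQ (p : ℕ) (Q : Fin a → Mon → K) : Submodule K (MD (p + 1) → K) :=
  Submodule.span K (Set.range fun j => fun m : MD (p + 1) => Q j m.1)

lemma finrank_PQ {Q : Fin a → Mon → K} {r : Mon → Fin a → K} (hg : gd p Q r ≠ 0) :
    Module.finrank K ((MD (p + 1) → K) ⧸ PQ p Q) + a = (p + 3).choose 2 := by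
  have h1 : LinearIndependent K fun j => fun m : MD (p + 1) => Q j m.1 := by
    refine Fintype.linearIndependent_iff.2 fun g h j => ?_
    refine congrFun (Matrix.eq_zero_of_vecMul_eq_zero hg (v := g) ?_) j
    ext j'
    simp only [Matrix.vecMul, dotProduct, Matrix.of_apply, Finset.mul_sum, Pi.zero_apply]
    rw [Finset.sum_comm]
    refine Finset.sum_eq_zero fun m hm => ?_
    have := congrFun h ⟨m, hm⟩
    simp only [Finset.sum_apply, Pi.smul_apply, smul_eq_mul, Pi.zero_apply] at this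
    simp only [← mul_assoc, ← Finset.sum_mul, this, zero_mul]
  have h2 := (PQ p Q).finrank_quotient_add_finrank
  rw [show Module.finrank K (PQ p Q) = a from (finrank_span_eq_card h1).trans (by simp)] at h2
  simpa [card_MD'] using h2

/-- the three partial derivatives of a functional, modulo the `Q j` -/
noncomputable def DQ (p : ℕ) (Q : Fin a → Mon → K) :
    (MD (p + 2) → K) →ₗ[K] (Fin 3 → (MD (p + 1) → K) ⧸ PQ p Q) :=
  LinearMap.pi fun l => (PQ p Q).mkQ ∘ₗ LinearMap.funLeft K K fun m : MD (p + 1) =>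
    (⟨m.1 + Finsupp.single l 1, mem_MD.2 (by simp [mem_MD.1 m.2])⟩ : MD (p + 2))

lemma DQ_eq (Q : Fin a → Mon → K) (Φ : MD (p + 2) → K) (l : Fin 3) (G : MD (p + 1) → K)
    (h : DQ p Q Φ l = (PQ p Q).mkQ G) : ∃ φ : Fin a → K, ∀ m : MD (p + 1),
      ext0 Φ (m.1 + Finsupp.single l 1) = G m + ∑ j, φ j * Q j m.1 := by
  obtain ⟨φ, hφ⟩ := (Submodule.mem_span_range_iff_exists_fun K).1
    ((Submodule.Quotient.eq _).1 h)
  refine ⟨φ, fun m => ?_⟩
  have := congrFun hφ m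
  simp only [Finset.sum_apply, Pi.smul_apply, smul_eq_mul, Pi.sub_apply,
    LinearMap.funLeft_apply] at this
  rw [this, add_sub_cancel]
  exact ext0_val Φ ⟨_, _⟩

/-- the dual of the space of linear syzygies -/
abbrev CQ (p : ℕ) (Q : Fin a → Mon → K) : Type :=
  (Fin 3 → (MD (p + 1) → K) ⧸ PQ p Q) ⧸ LinearMap.range (DQ p Q)

lemma finrank_CQ {Q : Fin a → Mon → K} (hB : NoUp p Q) :
    Module.finrank K (CQ p Q) + (p + 4).choose 2 =
      3 * Module.finrank K ((MD (p + 1) → K) ⧸ PQ p Q) := by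
  have h1 : Function.Injective (DQ p Q) := by
    rw [← LinearMap.ker_eq_bot, LinearMap.ker_eq_bot']
    intro Φ h
    choose φ hφ using fun l => DQ_eq Q Φ l 0 (by rw [h]; simp)
    ext m
    rw [← ext0_val Φ m]
    exact hB (ext0 Φ) φ (fun l m hm => by simpa using hφ l ⟨m, mem_MD.2 hm⟩) m.1 m.2
  have h2 := (LinearMap.range (DQ p Q)).finrank_quotient_add_finrank
  rw [LinearMap.finrank_range_of_inj h1] at h2
  simpa [card_MD', Module.finrank_pi_fintype] using h2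

/-- the three maps from the dual of the ideal to the dual of the syzygies -/
noncomputable def eQ (p : ℕ) (Q : Fin a → Mon → K) (l : Fin 3) :
    ((MD (p + 1) → K) ⧸ PQ p Q) →ₗ[K] CQ p Q :=
  (LinearMap.range (DQ p Q)).mkQ ∘ₗ LinearMap.single K (fun _ => (MD (p + 1) → K) ⧸ PQ p Q) l

variable {Kp Ic : Type} [Fintype Kp] [Fintype Ic]

omit [Fintype Ic] in
lemma sys1 (Q : Fin a → Mon → K) (E : Ic → Fin 3 → Kp → K)
    (v : Kp → (MD (p + 1) → K) ⧸ PQ p Q) (hv : v ≠ 0)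
    (hE : ∀ i, ∑ l, ∑ κ, E i l κ • eQ p Q l (v κ) = 0) :
    ∃ (lam : Kp → Mon → K) (F : Ic → Mon → K) (φ : Ic → Fin 3 → Fin a → K)
      (ψ : (MD (p + 1) → K) →ₗ[K] K),
      (∀ i l m, degree m = p + 1 →
        F i (m + Finsupp.single l 1) = ∑ s, Sum.elim (E i l) (φ i l) s * Sum.elim lam Q s m) ∧
      (∀ j, ψ (fun m => Q j m.1) = 0) ∧ ∃ κ, ψ (fun m => lam κ m.1) ≠ 0 := by
  choose g hg using fun κ => (PQ p Q).mkQ_surjective (v κ)
  have h1 : ∀ i, ∃ Φ, DQ p Q Φ = fun l => (PQ p Q).mkQ (∑ κ, E i l κ • g κ) := by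
    intro i
    refine (Submodule.Quotient.mk_eq_zero (LinearMap.range (DQ p Q))).1 ?_
    rw [← hE i]
    simp only [eQ, LinearMap.comp_apply, ← map_smul, ← map_sum, ← hg]
    refine congrArg (LinearMap.range (DQ p Q)).mkQ ?_
    ext l
    simp [Finset.sum_apply, Pi.single_apply]
  choose Φ hΦ using h1
  choose φ hφ using fun i l => DQ_eq Q (Φ i) l _ (congrFun (hΦ i) l)
  obtain ⟨κ, hκ⟩ := Function.ne_iff.1 hv
  obtain ⟨ψ, h2, h3⟩ := (PQ p Q).exists_dual_map_eq_bot_of_notMem (x := g κ) (fun h => hκ (by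
    rw [← hg κ]; exact (Submodule.Quotient.mk_eq_zero _).2 h)) inferInstance
  refine ⟨fun κ => ext0 (g κ), fun i => ext0 (Φ i), φ, ψ, fun i l m hm => ?_, fun j => ?_,
    κ, by simpa only [ext0_val] using h2⟩
  · have := hφ i l ⟨m, mem_MD.2 hm⟩
    have e : ∀ κ, ext0 (g κ) m = g κ ⟨m, mem_MD.2 hm⟩ := fun κ => ext0_val (g κ) ⟨m, _⟩
    simpa [Finset.sum_apply, e] using this
  · exact (Submodule.eq_bot_iff _).1 h3 _
      (Submodule.mem_map_of_mem (Submodule.subset_span ⟨j, rfl⟩))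

lemma sys2 {S T : Type} [Fintype S] [Fintype T] (G : T → Mon → K) (F : Ic → Mon → K)
    (E : Ic → Fin 3 → Kp → K) (ε : Ic → Fin 3 → T → K)
    (h1 : ∀ i l m, degree m = p + 1 → F i (m + Finsupp.single l 1) = ∑ s, ε i l s * G s m)
    (σ : S → Fin 3 × Ic)
    (hS : ∀ Ψ : Fin 3 → Ic → K,
      (∀ l l' κ, ∑ i, E i l' κ * Ψ l i = ∑ i, E i l κ * Ψ l' i) →
      (∀ t, Ψ (σ t).1 (σ t).2 = 0) → ∀ l i, Ψ l i = 0)
    (hE : ∀ y : Ic → K, (∀ l κ, ∑ i, E i l κ * y i = 0) → y = 0)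
    (hn : 3 * (Fintype.card Kp * Fintype.card T) + Fintype.card Ic * Fintype.card S <
      Fintype.card Kp * (p + 2).choose 2 + Fintype.card Ic * Fintype.card T) :
    ∃ (f : Kp → MD p → K) (w : Ic → T → K), f ≠ 0 ∧
      (∀ l κ s, ∑ m : MD p, f κ m * G s (m.1 + Finsupp.single l 1) = ∑ i, E i l κ * w i s) ∧
      ∀ i i' l, ∑ s, ε i' l s * w i s = 0 := by
  let L : ((Kp → MD p → K) × (Ic → T → K)) →ₗ[K] ((Fin 3 → Kp → T → K) × (Ic → S → K)) :=
    { toFun := fun x => (fun l κ s => ∑ m : MD p, x.1 κ m * G s (m.1 + Finsupp.single l 1) -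
        ∑ i, E i l κ * x.2 i s, fun i' t => ∑ s, ε i' (σ t).1 s * x.2 (σ t).2 s)
      map_add' := fun x y => by
        ext <;> simp only [Prod.fst_add, Prod.snd_add, Pi.add_apply, add_mul, mul_add,
          Finset.sum_add_distrib]
        ring
      map_smul' := fun c x => by
        ext <;> simp only [Prod.smul_fst, Prod.smul_snd, Pi.smul_apply, smul_eq_mul,
          RingHom.id_apply, mul_sub, Finset.mul_sum, mul_assoc, mul_left_comm] }
  obtain ⟨⟨f, w⟩, hx, hne⟩ := Submodule.exists_mem_ne_zero_of_ne_bot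
    (LinearMap.ker_ne_bot_of_finrank_lt (f := L) (by
      simpa [Module.finrank_pi_fintype, card_MD'] using hn))
  have h2 : ∀ l κ s, ∑ m : MD p, f κ m * G s (m.1 + Finsupp.single l 1) =
      ∑ i, E i l κ * w i s := fun l κ s =>
    sub_eq_zero.1 (congrFun (congrFun (congrFun (congrArg Prod.fst hx) l) κ) s)
  refine ⟨f, w, ?_, h2, fun i i' l => hS (fun l i => ∑ s, ε i' l s * w i s) (fun l l' κ => ?_)
    (fun t => congrFun (congrFun (congrArg Prod.snd hx) i') t) l i⟩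
  · rintro rfl
    refine hne (Prod.ext rfl ?_)
    ext i s
    exact congrFun (hE (fun i => w i s) fun l κ => by simpa using (h2 l κ s).symm) i
  · have key : ∀ l l', ∑ i, E i l' κ * ∑ s, ε i' l s * w i s =
        ∑ m : MD p, f κ m * F i' (m.1 + Finsupp.single l' 1 + Finsupp.single l 1) := by
      intro l l'
      have e : ∀ m : MD p, F i' (m.1 + Finsupp.single l' 1 + Finsupp.single l 1) =
          ∑ s, ε i' l s * G s (m.1 + Finsupp.single l' 1) := fun m =>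
        h1 i' l _ (by simp [mem_MD.1 m.2])
      simp only [e, Finset.mul_sum]
      rw [Finset.sum_comm, Finset.sum_comm (s := (Finset.univ : Finset (MD p)))]
      refine Finset.sum_congr rfl fun s _ => ?_
      simp only [mul_left_comm _ (ε i' l s), ← Finset.mul_sum, h2]
    rw [key, key]
    simp only [add_right_comm]

theorem defC {S : Type} [Fintype S] (ha : 1 ≤ a) {Q : Fin a → Mon → K} {r : Mon → Fin a → K}
    (hg : gd p Q r ≠ 0) (hA : NoLine (LQ p Q)) (E : Ic → Fin 3 → Kp → K)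
    (v : Kp → (MD (p + 1) → K) ⧸ PQ p Q) (hv : v ≠ 0)
    (hv' : ∀ i, ∑ l, ∑ κ, E i l κ • eQ p Q l (v κ) = 0) (σ : S → Fin 3 × Ic)
    (hS : ∀ Ψ : Fin 3 → Ic → K,
      (∀ l l' κ, ∑ i, E i l' κ * Ψ l i = ∑ i, E i l κ * Ψ l' i) →
      (∀ t, Ψ (σ t).1 (σ t).2 = 0) → ∀ l i, Ψ l i = 0)
    (hE : ∀ y : Ic → K, (∀ l κ, ∑ i, E i l κ * y i = 0) → y = 0)
    (hn : 3 * (Fintype.card Kp * (Fintype.card Kp + a)) + Fintype.card Ic * Fintype.card S <
      Fintype.card Kp * (p + 2).choose 2 + Fintype.card Ic * (Fintype.card Kp + a))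
    (hind : ∀ (f : Kp → MD p → K) (y : Ic → Fin a → K), f ≠ 0 →
      (∀ l κ, LQ p Q l (f κ) = ∑ i, E i l κ • y i) → ∀ t : Kp → K, ∑ κ, t κ • f κ = 0 → t = 0) :
    Deforms p Q := by
  obtain ⟨lam, F, φ, ψ, h1, h2, κ₀, h3⟩ := sys1 Q E v hv hv'
  obtain ⟨f, w, hf, h4, h5⟩ := sys2 (Sum.elim lam Q) F E (fun i l => Sum.elim (E i l) (φ i l)) h1
    σ hS hE (by simpa using hn)
  have h6 : ∀ l κ, LQ p Q l (f κ) = ∑ i, E i l κ • fun j => w i (Sum.inr j) := by
    intro l κ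
    ext j
    simpa [LQ_apply, Finset.sum_apply] using h4 l κ (Sum.inr j)
  refine deforms_of_data ha hg lam (fun κ => ext0 (f κ)) F (fun i l => Sum.elim (E i l) (φ i l)) w
    h1 (fun l κ s => by rw [sum_ext0]; exact h4 l κ s) (Or.inr h5) ?_
  by_contra hcon
  refine h3 (congrFun (hind f _ hf h6 (fun κ => ψ fun m => lam κ m.1)
    (hA _ 1 0 one_ne_zero fun l => ?_)) κ₀)
  ext j
  have e1 : ∑ i, w i (Sum.inr j) • (∑ κ, E i l κ • (fun m : MD (p + 1) => lam κ m.1) +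
      ∑ j', φ i l j' • fun m : MD (p + 1) => Q j' m.1) = 0 := by
    ext m
    have hm := mem_MD.1 m.2
    by_contra h0
    refine hcon ⟨m.1 + Finsupp.single l 1, by simp [hm], Or.inl ⟨j, fun h => h0 ?_⟩⟩
    simpa [h1 _ l _ hm, Finset.sum_apply, mul_comm, mul_add] using h
  have e2 := congrArg ψ e1
  simp only [map_sum, map_smul, map_add, h2, smul_eq_mul, mul_zero, Finset.sum_const_zero,
    add_zero, map_zero, Finset.mul_sum] at e2
  simp only [map_sum, map_smul, h6, Finset.sum_apply, Pi.smul_apply, smul_eq_mul, mul_zero,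
    Pi.zero_apply, Finset.mul_sum]
  rw [Finset.sum_comm, ← e2]
  exact Finset.sum_congr rfl fun _ _ => Finset.sum_congr rfl fun _ _ => by ring

end Pool.Agent.Lib.MP_851c4e_ag.Win
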