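import Mathlib
import Pool.Agent.Lib.MP_851c4e_ag.Win.Sys

/-!
The very compressed locus is not a component outside a narrow window.
-/

set_option autoImplicit false

namespace Pool.Agent.Lib.MP_851c4e_ag.Win

open MvPolynomial Matrix Topology
open Finsupp (degree degree_eq_sum)

variable {K : Type} [Field K] {p a : ℕ} {Q : Fin a → Mon → K} {r : Mon → Fin a → K}

lemma ind_unit (f : Unit → MD p → K) (hf : f ≠ 0) (t : Unit → K) (h : ∑ κ, t κ • f κ = 0) :
    t = 0 := by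
  ext
  simp only [Finset.univ_unique, Finset.sum_singleton, smul_eq_zero] at h
  exact h.resolve_right fun h0 => hf (funext fun _ => h0)

lemma defC3 (ha : 1 ≤ a) (hg : gd p Q r ≠ 0) (hA : NoLine (LQ p Q))
    (h1 : 3 * Module.finrank K (CQ p Q) < Module.finrank K ((MD (p + 1) → K) ⧸ PQ p Q))
    (h2 : 27 < (p + 2).choose 2) : Deforms p Q := by
  obtain ⟨v, hv, hne⟩ := Submodule.exists_mem_ne_zero_of_ne_bot
    (LinearMap.ker_ne_bot_of_finrank_lt (f := LinearMap.pi (eQ p Q)) (by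
      simpa [Module.finrank_pi_fintype] using h1))
  refine defC (Kp := Unit) (Ic := Fin 3) (S := Fin 3 × Fin 3) ha hg hA
    (fun i l _ => if i = l then 1 else 0) (fun _ => v) (fun h => hne (congrFun h ())) (fun i => ?_)
    id (fun Ψ _ h l i => h (l, i)) (fun y h => funext fun i => by simpa using h i ())
    (by simp; omega) fun f _ hf _ => ind_unit f hf
  simpa using congrFun (LinearMap.mem_ker.1 hv) i

lemma defC2 [IsAlgClosed K] (ha : 1 ≤ a) (hg : gd p Q r ≠ 0) (hA : NoLine (LQ p Q))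
    (h0 : 0 < Module.finrank K ((MD (p + 1) → K) ⧸ PQ p Q))
    (h1 : 2 * Module.finrank K (CQ p Q) ≤ Module.finrank K ((MD (p + 1) → K) ⧸ PQ p Q))
    (h2 : a + 7 < (p + 2).choose 2) : Deforms p Q := by
  obtain ⟨v, hne, h3, h4 | ⟨μ, h4⟩⟩ := rank_one h1 h0 (eQ p Q)
  · refine defC (Kp := Unit) (Ic := Fin 2) (S := Fin 3) ha hg hA
      (fun i l _ => ![![0, 0, 1], ![0, 1, 0]] i l) (fun _ => v) (fun h => hne (congrFun h ()))
      (fun i => ?_) ![(2, 0), (2, 1), (1, 1)] (fun Ψ h h' l i => ?_) (fun y h => funext fun i => ?_)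
      (by simp; omega) fun f _ hf _ => ind_unit f hf
    · fin_cases i <;> simp [Fin.sum_univ_three, h3, h4]
    · have a0 : Ψ 2 0 = 0 := h' 0
      have a1 : Ψ 2 1 = 0 := h' 1
      have a2 : Ψ 1 1 = 0 := h' 2
      have b0 := h 0 1 ()
      have b1 := h 0 2 ()
      have b2 := h 1 2 ()
      simp [a1] at b0 b1 b2
      fin_cases l <;> fin_cases i <;> simp [a0, a1, a2, b0, b1, b2]
    · have b0 := h 1 ()
      have b1 := h 2 ()
      simp at b0 b1
      fin_cases i <;> simp [b0, b1]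
  · refine defC (Kp := Unit) (Ic := Fin 2) (S := Fin 3) ha hg hA
      (fun i l _ => ![![1, 0, -μ], ![0, 1, 0]] i l) (fun _ => v) (fun h => hne (congrFun h ()))
      (fun i => ?_) ![(0, 0), (0, 1), (1, 1)] (fun Ψ h h' l i => ?_) (fun y h => funext fun i => ?_)
      (by simp; omega) fun f _ hf _ => ind_unit f hf
    · fin_cases i <;> simp [Fin.sum_univ_three, h3, h4]
    · have a0 : Ψ 0 0 = 0 := h' 0
      have a1 : Ψ 0 1 = 0 := h' 1
      have a2 : Ψ 1 1 = 0 := h' 2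
      have b0 := (h 0 1 ()).symm
      simp [a1] at b0
      have b1 := (h 0 2 ()).symm
      have b2 := (h 1 2 ()).symm
      simp [a0, b0] at b1 b2
      fin_cases l <;> fin_cases i <;> simp [a0, a1, a2, b0, b1, b2]
    · have b0 := h 0 ()
      have b1 := h 1 ()
      simp at b0 b1
      fin_cases i <;> simp [b0, b1]

/-- the module generated in degree zero by the forms of degree `n - 1` in two variables -/
def EC (K : Type) [Field K] (n : ℕ) (i : Fin (n + 1)) (l : Fin 3) (κ : Fin n) : K :=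
  ![if i = κ.castSucc then 1 else 0, if i = κ.succ then 1 else 0, 0] l

lemma defCn [IsAlgClosed K] (ha : 1 ≤ a) (hg : gd p Q r ≠ 0) (hA : NoLine (LQ p Q)) (n : ℕ)
    (h1 : (n + 2) * Module.finrank K (CQ p Q) <
      (n + 1) * Module.finrank K ((MD (p + 1) → K) ⧸ PQ p Q))
    (h2 : 3 * ((n + 1) * (n + 1 + a)) + (n + 2) * (n + 3) <
      (n + 1) * (p + 2).choose 2 + (n + 2) * (n + 1 + a)) : Deforms p Q := by
  let L : (Fin (n + 1) → (MD (p + 1) → K) ⧸ PQ p Q) →ₗ[K] (Fin (n + 2) → CQ p Q) :=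
    LinearMap.pi fun i => ∑ l, ∑ κ, EC K (n + 1) i l κ • eQ p Q l ∘ₗ LinearMap.proj κ
  obtain ⟨v, hv, hne⟩ := Submodule.exists_mem_ne_zero_of_ne_bot
    (LinearMap.ker_ne_bot_of_finrank_lt (f := L) (by
      simpa [Module.finrank_pi_fintype] using h1))
  refine defC (S := Option (Fin (n + 2))) ha hg hA (EC K (n + 1)) v hne (fun i => ?_)
    (fun s => s.elim (1, Fin.last _) fun i => (0, i)) (fun Ψ h h' l i => ?_)
    (fun y h => funext fun i => ?_) (by simpa using h2) fun f y hf h => ?_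
  · simpa [L, LinearMap.sum_apply] using congrFun (LinearMap.mem_ker.1 hv) i
  · have a0 : ∀ i, Ψ 0 i = 0 := fun i => h' (some i)
    have a1 : Ψ 1 (Fin.last _) = 0 := h' none
    have b0 : ∀ κ : Fin (n + 1), Ψ 1 κ.castSucc = 0 := fun κ => by simpa [EC, a0] using h 1 0 κ
    have b1 : ∀ κ : Fin (n + 1), Ψ 2 κ.castSucc = 0 := fun κ => by simpa [EC] using h 2 0 κ
    have b2 : Ψ 2 (Fin.last _) = 0 := by simpa [EC] using h 2 1 (Fin.last n)
    fin_cases l
    · exact a0 i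
    · exact Fin.lastCases (motive := fun i => Ψ 1 i = 0) a1 b0 i
    · exact Fin.lastCases (motive := fun i => Ψ 2 i = 0) b2 b1 i
  · exact Fin.lastCases (motive := fun i => y i = 0) (by simpa [EC] using h 1 (Fin.last n))
      (fun κ => by simpa [EC] using h 0 κ) i
  · exact chain_indep hA f y (fun κ => by simpa [EC] using h 0 κ)
      (fun κ => by simpa [EC] using h 1 κ) (fun κ => by simpa [EC] using h 2 κ) hf

lemma choose_ge (hp : 6 ≤ p) : p + 22 ≤ (p + 2).choose 2 := by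
  induction p, hp using Nat.le_induction with
  | base => decide
  | succ n _ ih =>
    have h3 : (n + 1 + 2).choose 2 = (n + 2).choose 1 + (n + 2).choose 2 :=
      Nat.choose_succ_succ (n + 2) 1
    rw [Nat.choose_one_right] at h3
    omega

theorem deforms [IsAlgClosed K] (hp : 6 ≤ p) (ha : 1 ≤ a) (hg : gd p Q r ≠ 0)
    (h : 2 * a ≤ (p + 2).choose 2 ∨ 5 * (p + 3).choose 2 ≤ 2 * (p + 4).choose 2 + 5 * a ∨
      ∃ n, 1 ≤ n ∧ (2 * n + 3) * (p + 3).choose 2 < (n + 1) * (p + 4).choose 2 + (2 * n + 3) * a ∧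
        2 * n * a + 3 * n ^ 2 + 2 * n + 2 < n * (p + 2).choose 2 + a) : Deforms p Q := by
  have hN := choose_ge hp
  by_cases hA : NoLine (LQ p Q)
  swap
  · exact defA ha (by omega) hg hA
  have h2 : ¬ 2 * a ≤ (p + 2).choose 2 := fun h2 =>
    not_noLine (by simpa [card_MD'] using h2) (by simp [card_MD']; omega) _ hA
  by_cases hB : NoUp p Q
  swap
  · exact defB (by omega) hg hB
  have e1 := finrank_PQ hg
  have e2 := finrank_CQ hB
  have h3 : (p + 3).choose 2 = (p + 2).choose 1 + (p + 2).choose 2 := Nat.choose_succ_succ (p + 2) 1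
  have h4 : (p + 4).choose 2 = (p + 3).choose 1 + (p + 3).choose 2 := Nat.choose_succ_succ (p + 3) 1
  rw [Nat.choose_one_right] at h3 h4
  rcases h.resolve_left h2 with h | ⟨n, hn, h5, h6⟩
  · by_cases h5 : a + 7 < (p + 2).choose 2
    · exact defC2 ha hg hA (by omega) (by omega) h5
    · exact defC3 ha hg hA (by omega) (by omega)
  · obtain ⟨n, rfl⟩ : ∃ n', n = n' + 1 := ⟨n - 1, by omega⟩
    refine defCn ha hg hA n ?_ (by nlinarith)
    rw [← e1] at h5
    nlinarith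

lemma two_choose (n : ℕ) : 2 * (n + 1).choose 2 = (n + 1) * n := by
  induction n with
  | zero => simp
  | succ n ih =>
    have h3 : (n + 1 + 1).choose 2 = (n + 1).choose 1 + (n + 1).choose 2 :=
      Nat.choose_succ_succ (n + 1) 1
    rw [Nat.choose_one_right] at h3
    rw [h3]
    nlinarith

lemma arith {s a N δ : ℕ} (hs : 7 ≤ s) (hN : 2 * N = (s + 1) * s) (hδ : 2 * a = N + δ)
    (h : s ^ 4 ≤ δ ^ 3) : 5 * (N + s + 1) ≤ 2 * (N + 2 * s + 3) + 5 * a ∨
      ∃ r, 1 ≤ r ∧ (2 * r + 3) * (N + s + 1) < (r + 1) * (N + 2 * s + 3) + (2 * r + 3) * a ∧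
        2 * r * a + 3 * r ^ 2 + 2 * r + 2 < r * N + a := by
  by_cases h5 : 5 * (N + s + 1) ≤ 2 * (N + 2 * s + 3) + 5 * a
  · exact Or.inl h5
  have h14 : 14 ≤ s := by
    by_contra h14
    have h13 : s < 14 := by omega
    have hb : δ ^ 3 ≤ ((N + 2 * s) / 4) ^ 3 := Nat.pow_le_pow_left (by omega) 3
    obtain rfl : N = (s + 1) * s / 2 := by omega
    interval_cases s <;> omega
  have h12 : 12 * s ≤ 5 * δ := by
    by_contra h12
    have h1 : (5 * δ) ^ 3 ≤ (12 * s) ^ 3 := Nat.pow_le_pow_left (by omega) 3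
    have h2 : 14 * s ^ 3 ≤ s * s ^ 3 := Nat.mul_le_mul_right _ h14
    have h3 : 0 < s ^ 3 := by positivity
    nlinarith
  have h30 : 30 ≤ δ := by omega
  obtain ⟨n, hn⟩ : ∃ n, n + 2 * δ = a + s := ⟨a + s - 2 * δ, by omega⟩
  obtain ⟨t, ht1, ht2⟩ : ∃ t, t * (δ + 1) ≤ n ∧ n < (t + 1) * (δ + 1) :=
    ⟨n / (δ + 1), Nat.div_mul_le_self _ _, by
      rw [mul_comm]; exact Nat.lt_mul_div_succ n (by omega)⟩
  have h4 : 4 * t * δ ≤ s ^ 2 := by nlinarith
  have h16 : 16 * t ^ 2 ≤ δ := by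
    by_contra h16
    have h1 : (4 * t * δ) ^ 2 ≤ (s ^ 2) ^ 2 := Nat.pow_le_pow_left h4 2
    have h2 : δ * δ ^ 2 < 16 * t ^ 2 * δ ^ 2 :=
      Nat.mul_lt_mul_of_pos_right (by omega) (by positivity)
    nlinarith
  have h7 : 3 * t ^ 2 + 7 * t + 7 + s < δ := by
    rcases Nat.lt_or_ge t 2 with h2 | h2
    · interval_cases t <;> omega
    · nlinarith
  exact Or.inr ⟨t + 1, by omega, by nlinarith, by nlinarith⟩

theorem main {k : Type} [Field k] [IsAlgClosed k] [CharZero k] (d s a : ℕ)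
    (hd : d = (s + 2).choose 3 + a) (h97 : 97 ≤ d) (ha : 1 ≤ a) (ha' : a ≤ (s + 2).choose 2)
    (h : 2 * a ≤ (s + 1).choose 2 ∨ s ^ 4 ≤ (2 * a - (s + 1).choose 2) ^ 3 ∨
      5 * (s + 2).choose 2 ≤ 2 * (s + 3).choose 2 + 5 * a ∨
      ∃ r, 1 ≤ r ∧ (2 * r + 3) * (s + 2).choose 2 < (r + 1) * (s + 3).choose 2 + (2 * r + 3) * a ∧
        2 * r * a + 3 * r ^ 2 + 2 * r + 2 < r * (s + 1).choose 2 + a) :
    ∃ Z : Set (Hilb k d), IsClosed Z ∧ IsIrreducible Z ∧ closure (VComp k d s a) ⊂ Z := by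
  have hs : 7 ≤ s := by
    by_contra hs
    have : s < 7 := by omega
    interval_cases s <;> simp [Nat.choose] at hd ha' <;> omega
  have h' : 2 * a ≤ (s + 1).choose 2 ∨ 5 * (s + 2).choose 2 ≤ 2 * (s + 3).choose 2 + 5 * a ∨
      ∃ r, 1 ≤ r ∧ (2 * r + 3) * (s + 2).choose 2 < (r + 1) * (s + 3).choose 2 + (2 * r + 3) * a ∧
        2 * r * a + 3 * r ^ 2 + 2 * r + 2 < r * (s + 1).choose 2 + a := by
    by_cases h2 : 2 * a ≤ (s + 1).choose 2
    · exact Or.inl h2
    refine Or.inr ((h.resolve_left h2).elim (fun h => ?_) id)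
    have h3 : (s + 2).choose 2 = (s + 1).choose 1 + (s + 1).choose 2 :=
      Nat.choose_succ_succ (s + 1) 1
    have h4 : (s + 3).choose 2 = (s + 2).choose 1 + (s + 2).choose 2 :=
      Nat.choose_succ_succ (s + 2) 1
    rw [Nat.choose_one_right] at h3 h4
    rw [show (s + 3).choose 2 = (s + 1).choose 2 + 2 * s + 3 by omega,
      show (s + 2).choose 2 = (s + 1).choose 2 + s + 1 by omega]
    exact arith hs (two_choose s) (by omega) h
  obtain ⟨p, rfl⟩ : ∃ p, s = p + 1 := ⟨s - 1, by omega⟩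
  exact generic hd ha ha' fun K _ _ Q r hg => deforms (by omega) ha hg h'

end Pool.Agent.Lib.MP_851c4e_ag.Win
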